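import Mathlib

/-!
The columns of the matrix of `T_2` on cusp forms of weight `12 d + 4 a + 6 e` in the basis
`Delta ^ (d - i) * Q ^ (a + 3 i) * R ^ e` (coordinate `X ^ i`), by recurrences.
-/

namespace MTT

open Polynomial

/-- First base value: `T_2 (Delta G) = b1 Delta G`, `G = Q ^ a R ^ e`. -/
def b1 : ℕ → ℕ → ℤ
  | 0, 0 => -24
  | 1, 0 => 216
  | 2, 0 => 456
  | 0, 1 => -528
  | 1, 1 => -288
  | 2, 1 => -48
  | _, _ => 0

/-- Second base value: `T_2 (Delta ^ 2 G) = Delta ^ 2 G (X + b2)`. -/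
def b2 : ℕ → ℕ → ℤ
  | 0, 0 => 384
  | 1, 0 => -9216
  | 2, 0 => 38784
  | 0, 1 => 8448
  | 1, 1 => -122112
  | 2, 1 => -195072
  | _, _ => 0

/-- Third base value: `T_2 (Delta ^ 3 G) = Delta ^ 3 G ((b1 - 48) X + b3)`. -/
def b3 : ℕ → ℕ → ℤ
  | 0, 0 => -6144
  | 1, 0 => 239616
  | 2, 0 => -2740224
  | 0, 1 => -135168
  | 1, 1 => 3981312
  | 2, 1 => -24158208
  | _, _ => 0

/-- `T_2 (Delta ^ (c + 1) G) = Delta ^ (c + 1) G (tau c)`. -/
noncomputable def tau (R : Type) [CommRing R] (a e : ℕ) : ℕ → R[X]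
  | 0 => C (b1 a e : R)
  | 1 => X + C (b2 a e : R)
  | 2 => C ((b1 a e - 48 : ℤ) : R) * X + C (b3 a e : R)
  | c + 3 => -48 * tau R a e (c + 2) + (X - 768) * tau R a e (c + 1) - 4096 * tau R a e c

/-- One more factor `Q ^ 3`: `T_2 (Delta ^ (c + 1) Q ^ (3 i + 3) G)` in terms of
`T_2 (Delta ^ c Q ^ (3 i) G)`, `T_2 (Delta ^ (c + 1) Q ^ (3 i) G)`,
`T_2 (Delta ^ (c + 2) Q ^ (3 i) G)`. -/
noncomputable def up {R : Type} [CommRing R] (s0 s1 s2 : R[X]) : R[X] :=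
  720 * s2 + (X + 195840) * s1 + 16773120 * s0

/-- The columns: `T_2 (Delta ^ (d - i) Q ^ (3 i) G) = Delta ^ d G (tcol d i)`, for `5 ≤ d`,
`i < d`. -/
noncomputable def tcol (R : Type) [CommRing R] (d a e : ℕ) : ℕ → R[X]
  | 0 => tau R a e (d - 1)
  | 1 => up (tau R a e (d - 3)) (tau R a e (d - 2)) (tau R a e (d - 1))
  | 2 => up (up (tau R a e (d - 5)) (tau R a e (d - 4)) (tau R a e (d - 3)))
      (up (tau R a e (d - 4)) (tau R a e (d - 3)) (tau R a e (d - 2)))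
      (up (tau R a e (d - 3)) (tau R a e (d - 2)) (tau R a e (d - 1)))
  | i + 3 => (X ^ 2 - 1488 * X + 162000) * tcol R d a e (i + 2) -
      (1488 * X ^ 2 + 40773375 * X + 8748000000) * tcol R d a e (i + 1) -
      (X - 54000) ^ 3 * tcol R d a e i

end MTT
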