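import Pool.Agent.Lib_MP_bfd926_tb.TFac
import Pool.Agent.Lib_MP_bfd926_tb.TDefs

/-!
The columns of the matrix, modulo the supersingular polynomial, in packed form.
-/

namespace MTT

open Polynomial

/-- Coefficients (base 2048) of the supersingular polynomial of the prime 1153. -/
def SSLIT : ℕ := 794829963901855240186724234170503688286854096339887651194111456354458606340212676270665342344715084973950236328833001303772655370647645963801440163226273258382900647576399792015824246401591002900621614555783476049957471055732478917194527478229692867193559220187437272698545417644974492484089672552949440935346504318983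

/-- The supersingular polynomial of the prime 1153 (degree 96). -/
noncomputable def SSP : (ZMod L)[X] := upk 97 SSLIT

theorem SSP_eq : upk 97 SSLIT = SSP := rfl

theorem SSP_check : Nat.beq (Nat.shiftRight (unp 97 SSLIT) (64 * 96)) 1 = true := by
  decide +kernel

attribute [local irreducible] upk pk SSP

theorem SSP_spec : SSP.Monic ∧ SSP.natDegree = 96 := by
  have h1 : (upk 97 SSLIT).natDegree < 97 := upk_natDegree (by norm_num) _
  have h3 : (unp 97 SSLIT) >>> (64 * 96) = 1 := Nat.eq_of_beq_eq_true SSP_check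
  rw [unp_eq (by norm_num)] at h3
  rw [SSP_eq] at h1 h3
  exact monic_of_shift (p := SSP) (r := 96) h1 h3

theorem SSP_monic : SSP.Monic := SSP_spec.1

theorem SSP_natDegree : SSP.natDegree = 96 := SSP_spec.2

/-- Remainder modulo the supersingular polynomial. -/
noncomputable def sg (p : (ZMod L)[X]) : (ZMod L)[X] := p %ₘ SSP

theorem sg_lt (p : (ZMod L)[X]) : (sg p).natDegree < 96 :=
  mod_lt SSP_monic SSP_natDegree (by norm_num)

theorem sg_add (p q : (ZMod L)[X]) : sg (p + q) = sg p + sg q := add_modByMonic p q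

theorem sg_C_mul (c : ZMod L) (p : (ZMod L)[X]) : sg (C c * p) = C c * sg p := by
  unfold sg
  rw [← smul_eq_C_mul, ← smul_eq_C_mul]
  exact smul_modByMonic c p

theorem sg_X_mul (p : (ZMod L)[X]) : sg (X * sg p) = sg (X * p) := by
  have hX : sg X = X := by
    unfold sg
    rw [modByMonic_eq_self_iff SSP_monic, degree_eq_natDegree SSP_monic.ne_zero, SSP_natDegree,
      degree_X]
    norm_num
  have h := mul_mod_mod (a := X) (b := p) SSP_monic
  unfold sg at *
  rw [hX] at h
  exact h

/-- Multiplication by `X` modulo the supersingular polynomial. -/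
noncomputable def mxN (NM a : ℕ) : ℕ :=
  red (Nat.add (Nat.mul a B) (Nat.mul (Nat.shiftRight a 6080) NM))

theorem mxN_spec {c : (ZMod L)[X]} (hc : c.natDegree < 96) :
    mxN (pk (-SSP)) (pk c) = pk (sg (X * c)) := by
  have h1 : Nat.shiftRight (pk c) 6080 = (c.coeff 95).val := by
    have h2 := pk_shiftRight c 95
    have h20 : (6080 : ℕ) = 64 * 95 := by norm_num
    rw [h20]
    have h3 : divX^[95] c = C (c.coeff 95) := by
      ext i
      rw [coeff_divX_iterate, coeff_C]
      by_cases hi : i = 0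
      · subst hi; simp
      · rw [if_neg hi]
        exact coeff_eq_zero_of_natDegree_lt (by omega)
    rw [h3] at h2
    refine Eq.trans h2 ?_
    rw [pk_divX, divX_C, pk_zero, coeff_C_zero, mul_zero, add_zero]
  have hN : (-SSP).natDegree < 97 := by rw [natDegree_neg, SSP_natDegree]; norm_num
  have h4 := (Rp_pk hc).shift
  have h5 := (Rp_pk hN).smul (c.coeff 95).val
  rw [ZMod.natCast_zmod_val] at h5
  have h6 := (h4.add h5).red
    (by
      have := val_le (c.coeff 95)
      have h7 : (c.coeff 95).val * (L - 1) ≤ (L - 1) * (L - 1) := Nat.mul_le_mul_right _ this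
      have h8 : (L - 1) * (L - 1) = 1327104 := by unfold L; norm_num
      have h9 : L = 1153 := rfl
      omega) (by norm_num)
  unfold mxN
  rw [h1]
  refine Eq.trans h6 ?_
  congr 1
  have hd : (X * c + C (c.coeff 95) * -SSP).degree < SSP.degree := by
    rw [degree_eq_natDegree SSP_monic.ne_zero, SSP_natDegree, degree_lt_iff_coeff_zero]
    intro i hi
    rw [coeff_add, coeff_C_mul, coeff_neg]
    obtain ⟨j, rfl⟩ : ∃ j, i = j + 1 := ⟨i - 1, by omega⟩
    rw [coeff_X_mul]
    by_cases hj : j = 95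
    · subst hj
      have : SSP.coeff 96 = 1 := by
        have := SSP_monic
        unfold Monic leadingCoeff at this
        rwa [SSP_natDegree] at this
      rw [this]; ring
    · have e1 : c.coeff j = 0 := coeff_eq_zero_of_natDegree_lt (by omega)
      have e2 : SSP.coeff (j + 1) = 0 :=
        coeff_eq_zero_of_natDegree_lt (by rw [SSP_natDegree]; omega)
      rw [e1, e2]
      ring
  have := (div_modByMonic_unique (f := X * c) (C (c.coeff 95)) (X * c + C (c.coeff 95) * -SSP)
    SSP_monic ⟨by ring, hd⟩).2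
  unfold sg
  exact this.symm

/-- Combination of three packed polynomials. -/
theorem comb3 {p q r s : (ZMod L)[X]} {n : ℕ} (hn : n ≤ 200) (hp : p.natDegree < n)
    (hq : q.natDegree < n) (hr : r.natDegree < n) (hs : s.natDegree < n) (x y z : ℕ)
    (h : x + y + z ≤ 5000) :
    red (Nat.add (Nat.add (Nat.add (pk p) (Nat.mul x (pk q))) (Nat.mul y (pk r)))
      (Nat.mul z (pk s))) =
      pk (p + C (x : ZMod L) * q + C (y : ZMod L) * r + C (z : ZMod L) * s) := by
  have h1 := (((Rp_pk hp).add ((Rp_pk hq).smul x)).add ((Rp_pk hr).smul y)).add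
    ((Rp_pk hs).smul z)
  apply h1.red _ hn
  have h9 : L = 1153 := rfl
  rw [h9]
  omega

/-- One step of the recurrence of `tau`. -/
noncomputable def nxtTau (NM x0 x1 x2 : ℕ) : ℕ :=
  red (Nat.add (Nat.add (Nat.add (mxN NM x1) (Nat.mul 1105 x2)) (Nat.mul 385 x1))
    (Nat.mul 516 x0))

theorem sg_three (x y z : ℕ) (p q r s : (ZMod L)[X]) :
    sg (X * p) + C (x : ZMod L) * sg q + C (y : ZMod L) * sg r + C (z : ZMod L) * sg s =
      sg (X * sg p + C (x : ZMod L) * q + C (y : ZMod L) * r + C (z : ZMod L) * s) := by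
  rw [sg_add, sg_add, sg_add, sg_C_mul, sg_C_mul, sg_C_mul, sg_X_mul]

theorem sg_three' (x y z : ℕ) (p q r s : (ZMod L)[X]) :
    sg (X * sg p + C (x : ZMod L) * q + C (y : ZMod L) * r + C (z : ZMod L) * s) =
      sg (X * p + C (x : ZMod L) * q + C (y : ZMod L) * r + C (z : ZMod L) * s) := by
  rw [← sg_three, sg_add, sg_add, sg_add, sg_C_mul, sg_C_mul, sg_C_mul]

theorem cst {x : ℕ} {z : ℤ} (h : ((x : ℕ) : ZMod L) = ((z : ℤ) : ZMod L)) :
    (C ((x : ℕ) : ZMod L) : (ZMod L)[X]) = ((z : ℤ) : (ZMod L)[X]) := by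
  rw [h]; simp

theorem nxtTau_spec (p0 p1 p2 : (ZMod L)[X]) :
    nxtTau (pk (-SSP)) (pk (sg p0)) (pk (sg p1)) (pk (sg p2)) =
      pk (sg (-48 * p2 + (X - 768) * p1 - 4096 * p0)) := by
  unfold nxtTau
  rw [mxN_spec (sg_lt _), sg_X_mul, comb3 (n := 96) (by norm_num) (sg_lt _) (sg_lt _) (sg_lt _)
    (sg_lt _) 1105 385 516 (by norm_num), sg_three, sg_three']
  congr 2
  rw [cst (x := 1105) (z := -48) (by decide), cst (x := 385) (z := -768) (by decide),
    cst (x := 516) (z := -4096) (by decide)]
  push_cast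
  ring

/-- Packed version of `up`. -/
noncomputable def upN (NM s0 s1 s2 : ℕ) : ℕ :=
  red (Nat.add (Nat.add (Nat.add (mxN NM s1) (Nat.mul 720 s2)) (Nat.mul 983 s1))
    (Nat.mul 429 s0))

theorem upN_spec (p0 p1 p2 : (ZMod L)[X]) :
    upN (pk (-SSP)) (pk (sg p0)) (pk (sg p1)) (pk (sg p2)) = pk (sg (up p0 p1 p2)) := by
  unfold upN up
  rw [mxN_spec (sg_lt _), sg_X_mul, comb3 (n := 96) (by norm_num) (sg_lt _) (sg_lt _) (sg_lt _)
    (sg_lt _) 720 983 429 (by norm_num), sg_three, sg_three']
  congr 2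
  rw [cst (x := 720) (z := 720) (by decide), cst (x := 983) (z := 195840) (by decide),
    cst (x := 429) (z := 16773120) (by decide)]
  push_cast
  ring

/-- One step of the recurrence of the columns. -/
noncomputable def nxtCol (NM t0 t1 t2 : ℕ) : ℕ :=
  force (red (Nat.mul 1152 t0)) fun w1 =>
  force (red (Nat.add (Nat.add (Nat.add (mxN NM w1) (Nat.mul 1 t2)) (Nat.mul 818 t1))
    (Nat.mul 580 t0))) fun w2 =>
  force (red (Nat.add (Nat.add (Nat.add (mxN NM w2) (Nat.mul 818 t2)) (Nat.mul 164 t1))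
    (Nat.mul 92 t0))) fun w3 =>
  red (Nat.add (Nat.add (Nat.add (mxN NM w3) (Nat.mul 580 t2)) (Nat.mul 92 t1))
    (Nat.mul 861 t0))

theorem nxtCol_spec (p0 p1 p2 : (ZMod L)[X]) :
    nxtCol (pk (-SSP)) (pk (sg p0)) (pk (sg p1)) (pk (sg p2)) =
      pk (sg ((X ^ 2 - 1488 * X + 162000) * p2 -
        (1488 * X ^ 2 + 40773375 * X + 8748000000) * p1 - (X - 54000) ^ 3 * p0)) := by
  have e1 : red (Nat.mul 1152 (pk (sg p0))) = pk (sg (-p0)) := by
    have h5 := ((Rp_pk (sg_lt p0)).smul 1152).red (by unfold L; norm_num) (by norm_num)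
    refine Eq.trans h5 ?_
    rw [cst (x := 1152) (z := -1) (by decide)]
    congr 1
    have : (-p0) = C (-1 : ZMod L) * p0 := by rw [C_neg, C_1]; ring
    rw [this, sg_C_mul, C_neg, C_1]
    push_cast
    ring
  unfold nxtCol
  rw [force_eq, e1]
  rw [force_eq, mxN_spec (sg_lt _), sg_X_mul, comb3 (n := 96) (by norm_num) (sg_lt _) (sg_lt _)
    (sg_lt _) (sg_lt _) 1 818 580 (by norm_num), sg_three, sg_three']
  rw [force_eq, mxN_spec (sg_lt _), sg_X_mul, comb3 (n := 96) (by norm_num) (sg_lt _) (sg_lt _)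
    (sg_lt _) (sg_lt _) 818 164 92 (by norm_num), sg_three, sg_three']
  rw [mxN_spec (sg_lt _), sg_X_mul, comb3 (n := 96) (by norm_num) (sg_lt _) (sg_lt _)
    (sg_lt _) (sg_lt _) 580 92 861 (by norm_num), sg_three, sg_three']
  congr 2
  rw [cst (x := 1) (z := 1) (by decide), cst (x := 818) (z := -1488) (by decide),
    cst (x := 580) (z := 162000) (by decide), cst (x := 164) (z := -40773375) (by decide),
    cst (x := 92) (z := -8748000000) (by decide),
    cst (x := 861) (z := 157464000000000) (by decide)]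
  push_cast
  ring

end MTT
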