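import Pool.Agent.Lib_MP_bfd926_tb.TD000
import Pool.Agent.Lib_MP_bfd926_tb.TD001
import Pool.Agent.Lib_MP_bfd926_tb.TD002
import Pool.Agent.Lib_MP_bfd926_tb.TD003
import Pool.Agent.Lib_MP_bfd926_tb.TD004
import Pool.Agent.Lib_MP_bfd926_tb.TD005
import Pool.Agent.Lib_MP_bfd926_tb.TD010
import Pool.Agent.Lib_MP_bfd926_tb.TD011
import Pool.Agent.Lib_MP_bfd926_tb.TD012
import Pool.Agent.Lib_MP_bfd926_tb.TD013
import Pool.Agent.Lib_MP_bfd926_tb.TD014
import Pool.Agent.Lib_MP_bfd926_tb.TD015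
import Pool.Agent.Lib_MP_bfd926_tb.TD100
import Pool.Agent.Lib_MP_bfd926_tb.TD101
import Pool.Agent.Lib_MP_bfd926_tb.TD102
import Pool.Agent.Lib_MP_bfd926_tb.TD103
import Pool.Agent.Lib_MP_bfd926_tb.TD104
import Pool.Agent.Lib_MP_bfd926_tb.TD105
import Pool.Agent.Lib_MP_bfd926_tb.TD110
import Pool.Agent.Lib_MP_bfd926_tb.TD111
import Pool.Agent.Lib_MP_bfd926_tb.TD112
import Pool.Agent.Lib_MP_bfd926_tb.TD113
import Pool.Agent.Lib_MP_bfd926_tb.TD114
import Pool.Agent.Lib_MP_bfd926_tb.TD115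
import Pool.Agent.Lib_MP_bfd926_tb.TD200
import Pool.Agent.Lib_MP_bfd926_tb.TD201
import Pool.Agent.Lib_MP_bfd926_tb.TD202
import Pool.Agent.Lib_MP_bfd926_tb.TD203
import Pool.Agent.Lib_MP_bfd926_tb.TD204
import Pool.Agent.Lib_MP_bfd926_tb.TD205
import Pool.Agent.Lib_MP_bfd926_tb.TD210
import Pool.Agent.Lib_MP_bfd926_tb.TD211
import Pool.Agent.Lib_MP_bfd926_tb.TD212
import Pool.Agent.Lib_MP_bfd926_tb.TD213
import Pool.Agent.Lib_MP_bfd926_tb.TD214
import Pool.Agent.Lib_MP_bfd926_tb.TD215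

/-!
The complete table for the prime 1153.
-/

namespace MTT

/-- The bounds for the weights 1156, 1158, ..., 2308. -/
def TB : List ℕ :=
  [5, 5, 7, 2, 5, 12, 5, 8, 11, 10, 7, 11, 8, 4, 9, 6, 9, 10, 7, 8,
   7, 4, 11, 6, 6, 11, 8, 9, 8, 9, 8, 6, 7, 15, 8, 9, 7, 8, 7, 8,
   9, 12, 10, 9, 11, 13, 10, 8, 13, 10, 9, 10, 7, 9, 6, 8, 6, 8, 7, 10,
   8, 9, 13, 5, 13, 9, 7, 9, 10, 14, 9, 8, 8, 12, 10, 7, 10, 9, 9, 12,
   11, 6, 9, 9, 7, 11, 7, 14, 8, 10, 7, 14, 15, 7, 8, 7, 9, 9, 6, 7,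
   10, 10, 10, 9, 10, 9, 9, 5, 5, 8, 9, 12, 11, 6, 9, 6, 12, 10, 8, 7,
   11, 9, 6, 9, 10, 10, 16, 11, 7, 9, 7, 12, 11, 9, 14, 7, 7, 7, 8, 12,
   11, 9, 11, 11, 10, 8, 13, 8, 11, 14, 12, 7, 11, 9, 11, 12, 16, 14, 5, 10,
   9, 10, 6, 12, 7, 4, 7, 6, 8, 9, 7, 11, 13, 9, 8, 11, 10, 8, 9, 10,
   8, 10, 8, 11, 11, 12, 10, 14, 9, 17, 10, 7, 8, 9, 6, 11, 10, 12, 10, 8,
   7, 7, 15, 12, 8, 5, 10, 10, 8, 11, 12, 11, 10, 11, 12, 7, 12, 16, 8, 8,
   7, 5, 12, 5, 6, 9, 8, 9, 9, 11, 11, 10, 8, 8, 8, 10, 10, 10, 6, 9,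
   9, 13, 6, 6, 10, 10, 9, 11, 11, 11, 6, 8, 9, 10, 10, 8, 12, 8, 9, 13,
   9, 14, 8, 8, 9, 7, 7, 9, 12, 7, 15, 9, 10, 11, 11, 9, 10, 10, 8, 8,
   11, 6, 5, 11, 11, 11, 11, 12, 12, 11, 11, 11, 11, 5, 6, 11, 8, 8, 10, 10,
   9, 11, 11, 10, 9, 15, 7, 12, 9, 7, 7, 9, 8, 8, 14, 9, 13, 9, 8, 12,
   8, 10, 10, 9, 8, 6, 11, 11, 11, 9, 10, 10, 6, 6, 13, 9, 9, 6, 10, 10,
   10, 8, 8, 8, 10, 11, 11, 9, 9, 8, 9, 6, 5, 12, 5, 7, 8, 8, 16, 12,
   7, 12, 11, 10, 11, 12, 11, 8, 10, 10, 5, 8, 12, 15, 7, 7, 8, 10, 12, 10,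
   11, 6, 9, 8, 7, 10, 17, 9, 14, 10, 12, 11, 11, 8, 10, 8, 10, 9, 8, 10,
   11, 8, 9, 13, 11, 7, 9, 8, 6, 7, 4, 7, 12, 6, 10, 9, 10, 5, 14, 16,
   12, 11, 9, 11, 7, 12, 14, 11, 8, 13, 8, 10, 11, 11, 9, 11, 12, 8, 7, 7,
   7, 14, 9, 11, 12, 7, 9, 7, 11, 16, 10, 10, 9, 6, 9, 11, 7, 8, 10, 12,
   6, 9, 6, 11, 12, 9, 8, 5, 5, 9, 9, 10, 9, 10, 10, 10, 7, 6, 9, 9,
   7, 8, 7, 15, 14, 7, 10, 8, 14, 7, 11, 7, 9, 9, 6, 11, 12, 9, 9, 10,
   7, 10, 12, 8, 8, 9, 14, 10, 9, 7, 9, 13, 5, 13, 9, 8, 10, 7, 8, 6,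
   8, 6, 9, 7, 10, 9, 10, 13, 8, 10, 13, 11, 9, 10, 12, 9, 8, 7, 8, 7,
   9, 8, 15, 7, 6, 8, 9, 8, 9, 8, 11, 6, 6, 11, 4, 7, 8, 7, 10, 9,
   6, 9, 4, 8, 11, 7, 10, 11, 8, 5, 12, 5, 2, 7, 5, 5, 12]

/-- The bound for the weight `k`. -/
def tb (k : ℕ) : ℕ := TB.getD ((k - 1156) / 2) 0

theorem tb_sum : ∑ j ∈ Finset.range 577, tb (1156 + 2 * j) = 5316 := by
  decide +kernel

theorem TB_length : TB.length = 577 := by decide +kernel

theorem tab_0_0 (d : ℕ) (h1 : 97 ≤ d) (h2 : d ≤ 192) :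
    nfac (Tm d 0 0).charpoly ≤ tb (12 * d + 0) := by
  rcases Nat.lt_or_ge d 113 with h3 | h3
  · clear h2
    have h4 := c_0_0_0 (d - 97) (by omega)
    have h5 : 97 + (d - 97) = d := by omega
    rw [h5] at h4
    have h6 : ∀ i, i < 16 → [5, 7, 9, 11, 8, 8, 9, 10, 7, 7, 13, 9, 10, 9, 8, 8].getD i 0 ≤ tb (12 * (97 + i) + 0) := by decide +kernel
    have h7 := h6 (d - 97) (by omega)
    rw [h5] at h7
    exact h4.trans h7
  rcases Nat.lt_or_ge d 129 with h3 | h3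
  · clear h2
    have h4 := c_0_0_1 (d - 113) (by omega)
    have h5 : 113 + (d - 113) = d := by omega
    rw [h5] at h4
    have h6 : ∀ i, i < 16 → [10, 9, 11, 8, 10, 7, 7, 11, 11, 11, 9, 7, 13, 9, 11, 10].getD i 0 ≤ tb (12 * (113 + i) + 0) := by decide +kernel
    have h7 := h6 (d - 113) (by omega)
    rw [h5] at h7
    exact h4.trans h7
  rcases Nat.lt_or_ge d 145 with h3 | h3
  · clear h2
    have h4 := c_0_0_2 (d - 129) (by omega)
    have h5 : 129 + (d - 129) = d := by omega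
    rw [h5] at h4
    have h6 : ∀ i, i < 16 → [10, 15, 8, 12, 7, 8, 8, 6, 10, 6, 12, 8, 12, 11, 11, 11].getD i 0 ≤ tb (12 * (129 + i) + 0) := by decide +kernel
    have h7 := h6 (d - 129) (by omega)
    rw [h5] at h7
    exact h4.trans h7
  rcases Nat.lt_or_ge d 161 with h3 | h3
  · clear h2
    have h4 := c_0_0_3 (d - 145) (by omega)
    have h5 : 145 + (d - 145) = d := by omega
    rw [h5] at h4
    have h6 : ∀ i, i < 16 → [11, 10, 9, 7, 13, 10, 11, 13, 10, 11, 5, 16, 11, 5, 8, 9].getD i 0 ≤ tb (12 * (145 + i) + 0) := by decide +kernel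
    have h7 := h6 (d - 145) (by omega)
    rw [h5] at h7
    exact h4.trans h7
  rcases Nat.lt_or_ge d 177 with h3 | h3
  · clear h2
    have h4 := c_0_0_4 (d - 161) (by omega)
    have h5 : 161 + (d - 161) = d := by omega
    rw [h5] at h4
    have h6 : ∀ i, i < 16 → [14, 10, 11, 9, 12, 14, 7, 8, 12, 9, 11, 9, 6, 8, 9, 9].getD i 0 ≤ tb (12 * (161 + i) + 0) := by decide +kernel
    have h7 := h6 (d - 161) (by omega)
    rw [h5] at h7
    exact h4.trans h7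
  have h4 := c_0_0_5 (d - 177) (by omega)
  have h5 : 177 + (d - 177) = d := by omega
  rw [h5] at h4
  have h6 : ∀ i, i < 16 → [14, 11, 12, 12, 9, 9, 8, 10, 9, 8, 6, 11, 8, 4, 8, 5].getD i 0 ≤ tb (12 * (177 + i) + 0) := by decide +kernel
  have h7 := h6 (d - 177) (by omega)
  rw [h5] at h7
  exact h4.trans h7

theorem tab_0_1 (d : ℕ) (h1 : 96 ≤ d) (h2 : d ≤ 191) :
    nfac (Tm d 0 1).charpoly ≤ tb (12 * d + 6) := by
  rcases Nat.lt_or_ge d 112 with h3 | h3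
  · clear h2
    have h4 := c_0_1_0 (d - 96) (by omega)
    have h5 : 96 + (d - 96) = d := by omega
    rw [h5] at h4
    have h6 : ∀ i, i < 16 → [5, 8, 4, 8, 11, 6, 8, 9, 10, 8, 9, 9, 12, 12, 11, 14].getD i 0 ≤ tb (12 * (96 + i) + 6) := by decide +kernel
    have h7 := h6 (d - 96) (by omega)
    rw [h5] at h7
    exact h4.trans h7
  rcases Nat.lt_or_ge d 128 with h3 | h3
  · clear h2
    have h4 := c_0_1_1 (d - 112) (by omega)
    have h5 : 112 + (d - 112) = d := by omega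
    rw [h5] at h4
    have h6 : ∀ i, i < 16 → [9, 9, 8, 6, 9, 11, 9, 12, 8, 7, 14, 12, 9, 11, 10, 14].getD i 0 ≤ tb (12 * (112 + i) + 6) := by decide +kernel
    have h7 := h6 (d - 112) (by omega)
    rw [h5] at h7
    exact h4.trans h7
  rcases Nat.lt_or_ge d 144 with h3 | h3
  · clear h2
    have h4 := c_0_1_2 (d - 128) (by omega)
    have h5 : 128 + (d - 128) = d := by omega
    rw [h5] at h4
    have h6 : ∀ i, i < 16 → [9, 8, 5, 11, 16, 5, 11, 10, 13, 11, 10, 13, 7, 9, 10, 11].getD i 0 ≤ tb (12 * (128 + i) + 6) := by decide +kernel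
    have h7 := h6 (d - 128) (by omega)
    rw [h5] at h7
    exact h4.trans h7
  rcases Nat.lt_or_ge d 160 with h3 | h3
  · clear h2
    have h4 := c_0_1_3 (d - 144) (by omega)
    have h5 : 144 + (d - 144) = d := by omega
    rw [h5] at h4
    have h6 : ∀ i, i < 16 → [11, 11, 11, 12, 8, 12, 6, 10, 6, 8, 8, 7, 12, 8, 15, 10].getD i 0 ≤ tb (12 * (144 + i) + 6) := by decide +kernel
    have h7 := h6 (d - 144) (by omega)
    rw [h5] at h7
    exact h4.trans h7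
  rcases Nat.lt_or_ge d 176 with h3 | h3
  · clear h2
    have h4 := c_0_1_4 (d - 160) (by omega)
    have h5 : 160 + (d - 160) = d := by omega
    rw [h5] at h4
    have h6 : ∀ i, i < 16 → [10, 11, 9, 13, 7, 9, 11, 11, 11, 7, 7, 10, 8, 11, 9, 10].getD i 0 ≤ tb (12 * (160 + i) + 6) := by decide +kernel
    have h7 := h6 (d - 160) (by omega)
    rw [h5] at h7
    exact h4.trans h7
  have h4 := c_0_1_5 (d - 176) (by omega)
  have h5 : 176 + (d - 176) = d := by omega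
  rw [h5] at h4
  have h6 : ∀ i, i < 16 → [8, 8, 9, 10, 9, 13, 7, 7, 10, 9, 8, 8, 11, 9, 7, 5].getD i 0 ≤ tb (12 * (176 + i) + 6) := by decide +kernel
  have h7 := h6 (d - 176) (by omega)
  rw [h5] at h7
  exact h4.trans h7

theorem tab_1_0 (d : ℕ) (h1 : 96 ≤ d) (h2 : d ≤ 192) :
    nfac (Tm d 1 0).charpoly ≤ tb (12 * d + 4) := by
  rcases Nat.lt_or_ge d 112 with h3 | h3
  · clear h2
    have h4 := c_1_0_0 (d - 96) (by omega)
    have h5 : 96 + (d - 96) = d := by omega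
    rw [h5] at h4
    have h6 : ∀ i, i < 16 → [5, 5, 8, 7, 6, 8, 7, 10, 13, 6, 8, 7, 8, 9, 7, 7].getD i 0 ≤ tb (12 * (96 + i) + 4) := by decide +kernel
    have h7 := h6 (d - 96) (by omega)
    rw [h5] at h7
    exact h4.trans h7
  rcases Nat.lt_or_ge d 128 with h3 | h3
  · clear h2
    have h4 := c_1_0_1 (d - 112) (by omega)
    have h5 : 112 + (d - 112) = d := by omega
    rw [h5] at h4
    have h6 : ∀ i, i < 16 → [9, 10, 5, 9, 11, 16, 11, 8, 10, 12, 16, 6, 8, 8, 8, 10].getD i 0 ≤ tb (12 * (112 + i) + 4) := by decide +kernel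
    have h7 := h6 (d - 112) (by omega)
    rw [h5] at h7
    exact h4.trans h7
  rcases Nat.lt_or_ge d 144 with h3 | h3
  · clear h2
    have h4 := c_1_0_2 (d - 128) (by omega)
    have h5 : 128 + (d - 128) = d := by omega
    rw [h5] at h4
    have h6 : ∀ i, i < 16 → [8, 10, 8, 12, 12, 12, 9, 8, 9, 9, 9, 9, 9, 15, 10, 5].getD i 0 ≤ tb (12 * (128 + i) + 4) := by decide +kernel
    have h7 := h6 (d - 128) (by omega)
    rw [h5] at h7
    exact h4.trans h7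
  rcases Nat.lt_or_ge d 160 with h3 | h3
  · clear h2
    have h4 := c_1_0_3 (d - 144) (by omega)
    have h5 : 144 + (d - 144) = d := by omega
    rw [h5] at h4
    have h6 : ∀ i, i < 16 → [12, 6, 9, 7, 8, 8, 8, 10, 9, 8, 9, 5, 7, 11, 12, 12].getD i 0 ≤ tb (12 * (144 + i) + 4) := by decide +kernel
    have h7 := h6 (d - 144) (by omega)
    rw [h5] at h7
    exact h4.trans h7
  rcases Nat.lt_or_ge d 176 with h3 | h3
  · clear h2
    have h4 := c_1_0_4 (d - 160) (by omega)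
    have h5 : 160 + (d - 160) = d := by omega
    rw [h5] at h4
    have h6 : ∀ i, i < 16 → [7, 12, 10, 9, 6, 10, 12, 14, 11, 7, 12, 10, 7, 6, 5, 10].getD i 0 ≤ tb (12 * (160 + i) + 4) := by decide +kernel
    have h7 := h6 (d - 160) (by omega)
    rw [h5] at h7
    exact h4.trans h7
  have h4 := c_1_0_5 (d - 176) (by omega)
  have h5 : 176 + (d - 176) = d := by omega
  rw [h5] at h4
  have h6 : ∀ i, i < 17 → [7, 10, 9, 9, 8, 9, 10, 9, 8, 12, 9, 9, 6, 10, 11, 12, 12].getD i 0 ≤ tb (12 * (176 + i) + 4) := by decide +kernel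
  have h7 := h6 (d - 176) (by omega)
  rw [h5] at h7
  exact h4.trans h7

theorem tab_1_1 (d : ℕ) (h1 : 96 ≤ d) (h2 : d ≤ 191) :
    nfac (Tm d 1 1).charpoly ≤ tb (12 * d + 10) := by
  rcases Nat.lt_or_ge d 112 with h3 | h3
  · clear h2
    have h4 := c_1_1_0 (d - 96) (by omega)
    have h5 : 96 + (d - 96) = d := by omega
    rw [h5] at h4
    have h6 : ∀ i, i < 16 → [2, 10, 6, 4, 9, 15, 8, 13, 10, 8, 5, 14, 7, 6, 14, 7].getD i 0 ≤ tb (12 * (96 + i) + 10) := by decide +kernel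
    have h7 := h6 (d - 96) (by omega)
    rw [h5] at h7
    exact h4.trans h7
  rcases Nat.lt_or_ge d 128 with h3 | h3
  · clear h2
    have h4 := c_1_1_1 (d - 112) (by omega)
    have h5 : 112 + (d - 112) = d := by omega
    rw [h5] at h4
    have h6 : ∀ i, i < 16 → [7, 9, 12, 10, 9, 9, 7, 9, 8, 9, 10, 4, 11, 8, 11, 17].getD i 0 ≤ tb (12 * (112 + i) + 10) := by decide +kernel
    have h7 := h6 (d - 112) (by omega)
    rw [h5] at h7
    exact h4.trans h7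
  rcases Nat.lt_or_ge d 144 with h3 | h3
  · clear h2
    have h4 := c_1_1_2 (d - 128) (by omega)
    have h5 : 128 + (d - 128) = d := by omega
    rw [h5] at h4
    have h6 : ∀ i, i < 16 → [11, 7, 10, 11, 8, 9, 10, 10, 6, 11, 8, 14, 9, 11, 8, 11].getD i 0 ≤ tb (12 * (128 + i) + 10) := by decide +kernel
    have h7 := h6 (d - 128) (by omega)
    rw [h5] at h7
    exact h4.trans h7
  rcases Nat.lt_or_ge d 160 with h3 | h3
  · clear h2
    have h4 := c_1_1_3 (d - 144) (by omega)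
    have h5 : 144 + (d - 144) = d := by omega
    rw [h5] at h4
    have h6 : ∀ i, i < 16 → [11, 8, 10, 7, 9, 10, 11, 6, 10, 11, 6, 8, 10, 10, 7, 6].getD i 0 ≤ tb (12 * (144 + i) + 10) := by decide +kernel
    have h7 := h6 (d - 144) (by omega)
    rw [h5] at h7
    exact h4.trans h7
  rcases Nat.lt_or_ge d 176 with h3 | h3
  · clear h2
    have h4 := c_1_1_4 (d - 160) (by omega)
    have h5 : 160 + (d - 160) = d := by omega
    rw [h5] at h4
    have h6 : ∀ i, i < 16 → [9, 8, 10, 7, 7, 5, 11, 13, 11, 14, 7, 6, 12, 9, 10, 6].getD i 0 ≤ tb (12 * (160 + i) + 10) := by decide +kernel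
    have h7 := h6 (d - 160) (by omega)
    rw [h5] at h7
    exact h4.trans h7
  have h4 := c_1_1_5 (d - 176) (by omega)
  have h5 : 176 + (d - 176) = d := by omega
  rw [h5] at h4
  have h6 : ∀ i, i < 16 → [15, 7, 11, 10, 10, 13, 6, 9, 11, 7, 7, 8, 7, 9, 11, 7].getD i 0 ≤ tb (12 * (176 + i) + 10) := by decide +kernel
  have h7 := h6 (d - 176) (by omega)
  rw [h5] at h7
  exact h4.trans h7

theorem tab_2_0 (d : ℕ) (h1 : 96 ≤ d) (h2 : d ≤ 191) :
    nfac (Tm d 2 0).charpoly ≤ tb (12 * d + 8) := by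
  rcases Nat.lt_or_ge d 112 with h3 | h3
  · clear h2
    have h4 := c_2_0_0 (d - 96) (by omega)
    have h5 : 96 + (d - 96) = d := by omega
    rw [h5] at h4
    have h6 : ∀ i, i < 16 → [7, 11, 9, 7, 8, 7, 7, 11, 9, 6, 13, 10, 10, 11, 7, 15].getD i 0 ≤ tb (12 * (96 + i) + 8) := by decide +kernel
    have h7 := h6 (d - 96) (by omega)
    rw [h5] at h7
    exact h4.trans h7
  rcases Nat.lt_or_ge d 128 with h3 | h3
  · clear h2
    have h4 := c_2_0_1 (d - 112) (by omega)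
    have h5 : 112 + (d - 112) = d := by omega
    rw [h5] at h4
    have h6 : ∀ i, i < 16 → [6, 10, 9, 12, 6, 7, 14, 11, 13, 11, 5, 7, 7, 10, 8, 9].getD i 0 ≤ tb (12 * (112 + i) + 8) := by decide +kernel
    have h7 := h6 (d - 112) (by omega)
    rw [h5] at h7
    exact h4.trans h7
  rcases Nat.lt_or_ge d 144 with h3 | h3
  · clear h2
    have h4 := c_2_0_2 (d - 128) (by omega)
    have h5 : 128 + (d - 128) = d := by omega
    rw [h5] at h4
    have h6 : ∀ i, i < 16 → [6, 7, 10, 10, 8, 6, 11, 10, 6, 11, 10, 9, 7, 10, 8, 11].getD i 0 ≤ tb (12 * (128 + i) + 8) := by decide +kernel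
    have h7 := h6 (d - 128) (by omega)
    rw [h5] at h7
    exact h4.trans h7
  rcases Nat.lt_or_ge d 160 with h3 | h3
  · clear h2
    have h4 := c_2_0_3 (d - 144) (by omega)
    have h5 : 144 + (d - 144) = d := by omega
    rw [h5] at h4
    have h6 : ∀ i, i < 16 → [11, 8, 11, 9, 14, 8, 11, 6, 10, 10, 9, 8, 11, 10, 7, 11].getD i 0 ≤ tb (12 * (144 + i) + 8) := by decide +kernel
    have h7 := h6 (d - 144) (by omega)
    rw [h5] at h7
    exact h4.trans h7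
  rcases Nat.lt_or_ge d 176 with h3 | h3
  · clear h2
    have h4 := c_2_0_4 (d - 160) (by omega)
    have h5 : 160 + (d - 160) = d := by omega
    rw [h5] at h4
    have h6 : ∀ i, i < 16 → [17, 11, 8, 11, 4, 10, 9, 8, 9, 7, 9, 9, 10, 12, 9, 7].getD i 0 ≤ tb (12 * (160 + i) + 8) := by decide +kernel
    have h7 := h6 (d - 160) (by omega)
    rw [h5] at h7
    exact h4.trans h7
  have h4 := c_2_0_5 (d - 176) (by omega)
  have h5 : 176 + (d - 176) = d := by omega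
  rw [h5] at h4
  have h6 : ∀ i, i < 16 → [7, 14, 6, 7, 14, 5, 8, 10, 13, 8, 15, 9, 4, 6, 10, 2].getD i 0 ≤ tb (12 * (176 + i) + 8) := by decide +kernel
  have h7 := h6 (d - 176) (by omega)
  rw [h5] at h7
  exact h4.trans h7

theorem tab_2_1 (d : ℕ) (h1 : 96 ≤ d) (h2 : d ≤ 191) :
    nfac (Tm d 2 1).charpoly ≤ tb (12 * d + 14) := by
  rcases Nat.lt_or_ge d 112 with h3 | h3
  · clear h2
    have h4 := c_2_1_0 (d - 96) (by omega)
    have h5 : 96 + (d - 96) = d := by omega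
    rw [h5] at h4
    have h6 : ∀ i, i < 16 → [12, 11, 10, 6, 9, 9, 12, 8, 9, 10, 9, 8, 9, 9, 10, 7].getD i 0 ≤ tb (12 * (96 + i) + 14) := by decide +kernel
    have h7 := h6 (d - 96) (by omega)
    rw [h5] at h7
    exact h4.trans h7
  rcases Nat.lt_or_ge d 128 with h3 | h3
  · clear h2
    have h4 := c_2_1_1 (d - 112) (by omega)
    have h5 : 112 + (d - 112) = d := by omega
    rw [h5] at h4
    have h6 : ∀ i, i < 16 → [10, 5, 6, 7, 10, 12, 7, 11, 14, 12, 10, 6, 9, 10, 12, 7].getD i 0 ≤ tb (12 * (112 + i) + 14) := by decide +kernel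
    have h7 := h6 (d - 112) (by omega)
    rw [h5] at h7
    exact h4.trans h7
  rcases Nat.lt_or_ge d 144 with h3 | h3
  · clear h2
    have h4 := c_2_1_2 (d - 128) (by omega)
    have h5 : 128 + (d - 128) = d := by omega
    rw [h5] at h4
    have h6 : ∀ i, i < 16 → [12, 12, 11, 7, 5, 9, 8, 9, 10, 8, 8, 8, 7, 9, 6, 12].getD i 0 ≤ tb (12 * (128 + i) + 14) := by decide +kernel
    have h7 := h6 (d - 128) (by omega)
    rw [h5] at h7
    exact h4.trans h7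
  rcases Nat.lt_or_ge d 160 with h3 | h3
  · clear h2
    have h4 := c_2_1_3 (d - 144) (by omega)
    have h5 : 144 + (d - 144) = d := by omega
    rw [h5] at h4
    have h6 : ∀ i, i < 16 → [5, 10, 15, 9, 9, 9, 9, 9, 8, 9, 12, 12, 12, 8, 10, 8].getD i 0 ≤ tb (12 * (144 + i) + 14) := by decide +kernel
    have h7 := h6 (d - 144) (by omega)
    rw [h5] at h7
    exact h4.trans h7
  rcases Nat.lt_or_ge d 176 with h3 | h3
  · clear h2
    have h4 := c_2_1_4 (d - 160) (by omega)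
    have h5 : 160 + (d - 160) = d := by omega
    rw [h5] at h4
    have h6 : ∀ i, i < 16 → [10, 8, 8, 8, 6, 16, 12, 10, 8, 11, 16, 11, 9, 5, 10, 9].getD i 0 ≤ tb (12 * (160 + i) + 14) := by decide +kernel
    have h7 := h6 (d - 160) (by omega)
    rw [h5] at h7
    exact h4.trans h7
  have h4 := c_2_1_5 (d - 176) (by omega)
  have h5 : 176 + (d - 176) = d := by omega
  rw [h5] at h4
  have h6 : ∀ i, i < 16 → [7, 7, 9, 8, 7, 8, 6, 13, 10, 7, 8, 6, 7, 8, 5, 5].getD i 0 ≤ tb (12 * (176 + i) + 14) := by decide +kernel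
  have h7 := h6 (d - 176) (by omega)
  rw [h5] at h7
  exact h4.trans h7

theorem table (d a e : ℕ) (ha : a ≤ 2) (he : e ≤ 1) (h1 : 1156 ≤ 12 * d + 4 * a + 6 * e)
    (h2 : 12 * d + 4 * a + 6 * e ≤ 2308) :
    nfac (Tm d a e).charpoly ≤ tb (12 * d + 4 * a + 6 * e) := by
  interval_cases a <;> interval_cases e
  · exact tab_0_0 d (by omega) (by omega)
  · exact tab_0_1 d (by omega) (by omega)
  · exact tab_1_0 d (by omega) (by omega)
  · exact tab_1_1 d (by omega) (by omega)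
  · exact tab_2_0 d (by omega) (by omega)
  · exact tab_2_1 d (by omega) (by omega)

end MTT
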