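import Mathlib

/-!
Number of irreducible factors of a characteristic polynomial, bounded with the help of a vector
whose annihilator is a given product of irreducible polynomials.
-/

namespace MTT

open Polynomial

/-- The number of irreducible factors of a polynomial, with multiplicity. -/
noncomputable def nfac {F : Type*} [Field F] (p : F[X]) : ℕ :=
  Multiset.card (UniqueFactorizationMonoid.factors p)

section

variable {F : Type*} [Field F]

theorem nfac_mul {p q : F[X]} (hp : p ≠ 0) (hq : q ≠ 0) : nfac (p * q) = nfac p + nfac q := by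
  unfold nfac
  have h := UniqueFactorizationMonoid.factors_mul hp hq
  rw [← Multiset.card_add]
  exact Multiset.card_eq_card_of_rel h

theorem nfac_le_natDegree {p : F[X]} (hp : p ≠ 0) : nfac p ≤ p.natDegree := by
  unfold nfac
  have h1 : (UniqueFactorizationMonoid.factors p).prod.natDegree = p.natDegree :=
    natDegree_eq_of_degree_eq (degree_eq_degree_of_associated
      (UniqueFactorizationMonoid.factors_prod hp))
  have h2 : ∀ q ∈ UniqueFactorizationMonoid.factors p, 1 ≤ q.natDegree := fun q hq =>
    (UniqueFactorizationMonoid.irreducible_of_factor q hq).natDegree_pos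
  have h3 : (0 : F[X]) ∉ UniqueFactorizationMonoid.factors p := fun h0 =>
    (UniqueFactorizationMonoid.irreducible_of_factor 0 h0).ne_zero rfl
  rw [← h1, natDegree_multiset_prod _ h3]
  have : (UniqueFactorizationMonoid.factors p).card • 1 ≤
      ((UniqueFactorizationMonoid.factors p).map natDegree).sum := by
    have := Multiset.card_nsmul_le_sum (s := (UniqueFactorizationMonoid.factors p).map natDegree)
      (a := 1) (by
        intro x hx
        obtain ⟨q, hq, rfl⟩ := Multiset.mem_map.1 hx
        exact h2 q hq)
    simpa using this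
  simpa using this

theorem nfac_one : nfac (1 : F[X]) = 0 := by
  have := nfac_le_natDegree (F := F) (p := 1) one_ne_zero
  simpa using this

theorem nfac_irreducible {p : F[X]} (hp : Irreducible p) : nfac p = 1 := by
  unfold nfac
  have h : Multiset.Rel Associated (UniqueFactorizationMonoid.factors p) {p} := by
    apply UniqueFactorizationMonoid.factors_unique
    · exact UniqueFactorizationMonoid.irreducible_of_factor
    · intro x hx
      rw [Multiset.mem_singleton] at hx
      rw [hx]; exact hp
    · rw [Multiset.prod_singleton]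
      exact UniqueFactorizationMonoid.factors_prod hp.ne_zero
  rw [Multiset.card_eq_card_of_rel h]
  simp

theorem nfac_list_prod (fs : List F[X]) (h : ∀ p ∈ fs, Irreducible p) :
    nfac fs.prod = fs.length := by
  induction fs with
  | nil => simpa using nfac_one
  | cons p ps ih =>
    have hp := h p (by simp)
    have hps : ∀ q ∈ ps, Irreducible q := fun q hq => h q (by simp [hq])
    have h0 : ps.prod ≠ 0 := by
      intro h0
      rw [List.prod_eq_zero_iff] at h0
      exact (hps 0 h0).ne_zero rfl
    rw [List.prod_cons, nfac_mul hp.ne_zero h0, nfac_irreducible hp, ih hps, List.length_cons]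
    omega

/-- If the annihilator of a vector is exactly the product of the irreducible polynomials `fs`,
then that product divides the characteristic polynomial. -/
theorem prod_dvd_charpoly {n : ℕ} (M : Matrix (Fin n) (Fin n) F) (v : Fin n → F)
    (fs : List F[X]) (hirr : ∀ p ∈ fs, Irreducible p)
    (h0 : aeval (Matrix.toLin' M) fs.prod v = 0)
    (h1 : ∀ i, i < fs.length → aeval (Matrix.toLin' M) (fs.eraseIdx i).prod v ≠ 0) :
    fs.prod ∣ M.charpoly := by
  classical
  have hne : fs.prod ≠ 0 := by
    intro h
    rw [List.prod_eq_zero_iff] at h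
    exact (hirr 0 h).ne_zero rfl
  -- the ideal of polynomials that kill v
  let J : Ideal F[X] :=
    { carrier := {g | aeval (Matrix.toLin' M) g v = 0}
      add_mem' := by
        intro a b ha hb
        simp only [Set.mem_setOf_eq] at *
        rw [map_add, LinearMap.add_apply, ha, hb, add_zero]
      zero_mem' := by simp
      smul_mem' := by
        intro c x hx
        simp only [Set.mem_setOf_eq, smul_eq_mul] at *
        rw [map_mul, Module.End.mul_apply, hx, map_zero] }
  have hJ : ∀ g, g ∈ J ↔ aeval (Matrix.toLin' M) g v = 0 := fun g => Iff.rfl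
  obtain ⟨g0, hg0⟩ := (IsPrincipalIdealRing.principal J).principal
  have hmem : ∀ g, g ∈ J ↔ g0 ∣ g := by
    intro g
    rw [hg0]
    exact Ideal.mem_span_singleton
  have hch : M.charpoly ∈ J := by
    rw [hJ]
    have : aeval (Matrix.toLin' M) M.charpoly = 0 := by
      have h := LinearMap.aeval_self_charpoly (Matrix.toLin' M)
      rwa [Matrix.charpoly_toLin'] at h
    rw [this]; rfl
  have hD : fs.prod ∈ J := by rw [hJ]; exact h0
  obtain ⟨h, hh⟩ := (hmem _).1 hD
  have hg0ne : g0 ≠ 0 := by
    rintro rfl
    rw [zero_mul] at hh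
    exact hne hh
  by_cases hu : IsUnit h
  · have : Associated g0 fs.prod := ⟨hu.unit, by rw [hh]; rfl⟩
    exact this.dvd_iff_dvd_left.1 ((hmem _).1 hch)
  · exfalso
    have hhne : h ≠ 0 := by
      rintro rfl
      rw [mul_zero] at hh
      exact hne hh
    obtain ⟨q, hq, h', hh'⟩ := WfDvdMonoid.exists_irreducible_factor hu hhne
    have hqd : q ∣ fs.prod := ⟨g0 * h', by rw [hh, hh']; ring⟩
    obtain ⟨p, hp, hqp⟩ := (hq.prime.dvd_prod_iff).1 hqd
    have hass : Associated q p := (hq.dvd_irreducible_iff_associated (hirr p hp)).1 hqp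
    obtain ⟨i, hi, hpi⟩ := List.getElem_of_mem hp
    have hprod : p * (fs.eraseIdx i).prod = fs.prod := by
      rw [← hpi]
      exact List.mul_prod_eraseIdx hi (fun a' _ => Commute.all _ _)
    obtain ⟨u, hu2⟩ := hass
    apply h1 i hi
    rw [← hJ, hmem]
    have hp0 : p ≠ 0 := (hirr p hp).ne_zero
    refine ⟨↑u⁻¹ * h', ?_⟩
    have e1 : p * (fs.eraseIdx i).prod = p * (g0 * (↑u⁻¹ * h')) := by
      rw [hprod, hh, hh']
      have : (q : F[X]) = p * ↑u⁻¹ := by rw [← hu2, mul_assoc]; simp
      rw [this]; ring
    exact mul_left_cancel₀ hp0 e1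

theorem cyc_bound {n : ℕ} (M : Matrix (Fin n) (Fin n) F) (v : Fin n → F)
    (fs : List F[X]) (hirr : ∀ p ∈ fs, Irreducible p)
    (h0 : aeval (Matrix.toLin' M) fs.prod v = 0)
    (h1 : ∀ i, i < fs.length → aeval (Matrix.toLin' M) (fs.eraseIdx i).prod v ≠ 0) :
    nfac M.charpoly ≤ fs.length + (n - fs.prod.natDegree) := by
  obtain ⟨E, hE⟩ := prod_dvd_charpoly M v fs hirr h0 h1
  have hc : M.charpoly ≠ 0 := M.charpoly_monic.ne_zero
  have hp : fs.prod ≠ 0 := by rintro h; rw [h, zero_mul] at hE; exact hc hE
  have hE0 : E ≠ 0 := by rintro rfl; rw [mul_zero] at hE; exact hc hE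
  have hdeg : n = fs.prod.natDegree + E.natDegree := by
    rw [← natDegree_mul hp hE0, ← hE, Matrix.charpoly_natDegree_eq_dim, Fintype.card_fin]
  rw [hE, nfac_mul hp hE0, nfac_list_prod fs hirr]
  have := nfac_le_natDegree hE0
  omega

end

end MTT
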