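import Pool.Agent.Lib_MP_bfd926_tb.TPoly

/-!
Linear combinations of packed polynomials, Krylov vectors.
-/

namespace MTT

open Polynomial

section alg

variable {F : Type*} [Field F]

/-- The combination of the polynomials of a list with the coefficients of `g`. -/
noncomputable def LT : List F[X] → F[X] → F[X]
  | [], _ => 0
  | c :: cs, g => C (g.coeff 0) * c + LT cs g.divX

theorem LT_eq_sum (cs : List F[X]) (g : F[X]) :
    LT cs g = ∑ i ∈ Finset.range cs.length, C (g.coeff i) * cs.getD i 0 := by
  induction cs generalizing g with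
  | nil => rfl
  | cons c cs ih =>
    unfold LT
    rw [ih, List.length_cons, Finset.sum_range_succ', add_comm]
    congr 1
    apply Finset.sum_congr rfl
    intro i _
    rw [coeff_divX, List.getD_cons_succ]

theorem LT_add (cs : List F[X]) (g h : F[X]) : LT cs (g + h) = LT cs g + LT cs h := by
  rw [LT_eq_sum, LT_eq_sum, LT_eq_sum, ← Finset.sum_add_distrib]
  apply Finset.sum_congr rfl
  intro i _
  rw [coeff_add, C_add]; ring

theorem LT_C_mul (cs : List F[X]) (a : F) (g : F[X]) : LT cs (C a * g) = C a * LT cs g := by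
  rw [LT_eq_sum, LT_eq_sum, Finset.mul_sum]
  apply Finset.sum_congr rfl
  intro i _
  rw [coeff_C_mul, C_mul]; ring

/-- The vector of the first `n` coefficients. -/
def vec (n : ℕ) (g : F[X]) : Fin n → F := fun j => g.coeff j

/-- The matrix whose columns are given by a list of polynomials. -/
noncomputable def lmat (n : ℕ) (cs : List F[X]) : Matrix (Fin n) (Fin n) F :=
  Matrix.of fun j i => (cs.getD i 0).coeff j

theorem vec_add (n : ℕ) (g h : F[X]) : vec n (g + h) = vec n g + vec n h := by
  funext j; simp [vec]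

theorem vec_C_mul (n : ℕ) (a : F) (g : F[X]) : vec n (C a * g) = a • vec n g := by
  funext j; simp [vec]

theorem vec_zero (n : ℕ) : vec n (0 : F[X]) = 0 := by
  funext j; simp [vec]

theorem vec_sum (n : ℕ) {ι : Type*} (s : Finset ι) (f : ι → F[X]) :
    vec n (∑ i ∈ s, f i) = ∑ i ∈ s, vec n (f i) := by
  classical
  induction s using Finset.induction_on with
  | empty => simp [vec_zero]
  | insert a s ha ih => rw [Finset.sum_insert ha, Finset.sum_insert ha, vec_add, ih]

theorem vec_inj {n : ℕ} {g : F[X]} (hg : g.natDegree < n) (h : vec n g = 0) : g = 0 := by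
  ext i
  by_cases hi : i < n
  · have := congrFun h ⟨i, hi⟩
    simpa [vec] using this
  · rw [coeff_eq_zero_of_natDegree_lt (by omega), coeff_zero]

theorem lmat_mulVec {n : ℕ} (cs : List F[X]) (hcs : cs.length = n) (g : F[X]) :
    Matrix.toLin' (lmat n cs) (vec n g) = vec n (LT cs g) := by
  rw [Matrix.toLin'_apply, LT_eq_sum, vec_sum, hcs]
  funext j
  rw [Finset.sum_apply]
  simp only [Matrix.mulVec, dotProduct, lmat, Matrix.of_apply, vec, coeff_C_mul]
  rw [Finset.sum_range (fun i => g.coeff i * (cs.getD i 0).coeff (j : ℕ))]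
  apply Finset.sum_congr rfl
  intro i _
  ring

/-- The Krylov list. -/
noncomputable def kry (cs : List F[X]) : ℕ → F[X] → List F[X]
  | 0, _ => []
  | m + 1, u => u :: kry cs m (LT cs u)

theorem kry_length (cs : List F[X]) (m : ℕ) (u : F[X]) : (kry cs m u).length = m := by
  induction m generalizing u with
  | zero => rfl
  | succ m ih => simp [kry, ih]

theorem aeval_LT {n : ℕ} (cs : List F[X]) (hcs : cs.length = n) (m : ℕ) (u g : F[X])
    (hg : g.natDegree < m) :
    aeval (Matrix.toLin' (lmat n cs)) g (vec n u) = vec n (LT (kry cs m u) g) := by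
  induction m generalizing u g with
  | zero => omega
  | succ m ih =>
    unfold kry LT
    rw [vec_add, vec_C_mul]
    by_cases hm : m = 0
    · subst hm
      have hg0 : g.natDegree = 0 := by omega
      rw [eq_C_of_natDegree_eq_zero hg0]
      simp [kry, LT, vec_zero]
    · have hd : g.divX.natDegree < m := by
        have := natDegree_divX_eq_natDegree_tsub_one (p := g)
        omega
      rw [← ih (LT cs u) g.divX hd, ← lmat_mulVec cs hcs]
      conv_lhs => rw [← divX_mul_X_add g]
      rw [map_add, map_mul, aeval_X, aeval_C, LinearMap.add_apply, Module.End.mul_apply]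
      rw [add_comm]
      congr 1

end alg

/-- Packed version of `LT`. -/
noncomputable def lc (cs : List ℕ) : ℕ → ℕ → ℕ :=
  List.rec (motive := fun _ => ℕ → ℕ → ℕ) (fun _ acc => acc)
    (fun c _ ih v acc => ih (Nat.div v B) (Nat.add acc (Nat.mul (Nat.mod v B) c))) cs

theorem lc_cons (c : ℕ) (cs : List ℕ) (v acc : ℕ) :
    lc (c :: cs) v acc = lc cs (Nat.div v B) (Nat.add acc (Nat.mul (Nat.mod v B) c)) := rfl

theorem lc_spec (cs : List (ZMod L)[X]) {n : ℕ} (hcs : ∀ c ∈ cs, c.natDegree < n)
    (g p0 : (ZMod L)[X]) (acc b : ℕ) (hacc : Rp acc p0 b n) :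
    Rp (lc (cs.map pk) (pk g) acc) (p0 + LT cs g)
      (b + cs.length * ((L - 1) * (L - 1))) n := by
  induction cs generalizing g acc p0 b with
  | nil =>
    have : p0 + LT [] g = p0 := by unfold LT; ring
    rw [this]
    exact hacc.mono (by simp) le_rfl
  | cons c cs ih =>
    rw [List.map_cons, lc_cons]
    have h1 : Nat.div (pk g) B = pk g.divX := pk_div_B g
    have h2 : Nat.mod (pk g) B = (g.coeff 0).val := pk_mod_B g
    rw [h1, h2]
    have h3 := (Rp_pk (hcs c (by simp))).smul (g.coeff 0).val
    rw [ZMod.natCast_zmod_val] at h3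
    have h4 := hacc.add (h3.mono (Nat.mul_le_mul_right _ (val_le _)) le_rfl)
    have h5 := ih (fun c hc => hcs c (by simp [hc])) g.divX _ _ _ h4
    have e1 : p0 + C (g.coeff 0) * c + LT cs g.divX = p0 + LT (c :: cs) g := by
      show p0 + C (g.coeff 0) * c + LT cs g.divX = p0 + (C (g.coeff 0) * c + LT cs g.divX)
      ring
    rw [e1] at h5
    refine h5.mono ?_ le_rfl
    rw [List.length_cons]
    ring_nf
    exact le_rfl

theorem Rp_zero (n : ℕ) (hn : 1 ≤ n) : Rp 0 0 0 n :=
  ⟨0, by simp, by simp, by simp, by rw [natDegree_zero]; omega⟩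

theorem lc_red {cs : List (ZMod L)[X]} {n : ℕ} (hn1 : 1 ≤ n) (hn : n ≤ 200)
    (hcs : ∀ c ∈ cs, c.natDegree < n) (hl : cs.length ≤ 200) (g : (ZMod L)[X]) :
    red (lc (cs.map pk) (pk g) 0) = pk (LT cs g) := by
  have h := lc_spec cs hcs g 0 0 0 (Rp_zero n hn1)
  rw [zero_add, zero_add] at h
  apply h.red _ hn
  have h5 : (L - 1) * (L - 1) = 1327104 := by unfold L; norm_num
  rw [h5]
  omega

end MTT
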