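import Pool.Agent.Lib_MP_bfd926_tb.TCols
import Pool.Agent.Lib_MP_bfd926_tb.TLin
import Pool.Agent.Lib_MP_bfd926_tb.TCyc

/-!
The complete check of one class of weights.
-/

namespace MTT

open Polynomial

attribute [local irreducible] upk pk SSP

/-- Least residue of an integer. -/
def zl (z : ℤ) : ℕ := (z % 1153).toNat

theorem zl_val (z : ℤ) : ((z : ℤ) : ZMod L).val = zl z := by
  have h := ZMod.val_intCast (n := L) z
  have h2 : ((L : ℕ) : ℤ) = 1153 := rfl
  unfold zl
  rw [h2] at h
  rw [← h, Int.toNat_natCast]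

theorem pk_C (x : ZMod L) : pk (C x) = x.val := by
  rw [pk_divX, divX_C, pk_zero, coeff_C_zero, mul_zero, add_zero]

theorem pk_C_add (x : ZMod L) (p : (ZMod L)[X]) : pk (C x + X * p) = x.val + B * pk p := by
  rw [pk_divX]
  have h1 : (C x + X * p).divX = p := by
    ext i
    rw [coeff_divX, coeff_add, coeff_X_mul, coeff_C, if_neg (by omega), zero_add]
  rw [h1, coeff_add, coeff_C_zero, coeff_X_mul_zero, add_zero]

theorem sg_self {p : (ZMod L)[X]} (h : p.natDegree < 96) : sg p = p := by
  unfold sg
  rw [modByMonic_eq_self_iff SSP_monic, degree_eq_natDegree SSP_monic.ne_zero, SSP_natDegree]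
  exact (degree_lt_iff_coeff_zero _ _).2 (coeff_of_natDegree_lt h)

theorem tau0 (a e : ℕ) : pk (sg (tau (ZMod L) a e 0)) = zl (b1 a e) := by
  have h : tau (ZMod L) a e 0 = C ((b1 a e : ℤ) : ZMod L) := rfl
  rw [h, sg_self (by rw [natDegree_C]; norm_num), pk_C, zl_val]

theorem tau1 (a e : ℕ) : pk (sg (tau (ZMod L) a e 1)) = Nat.add (zl (b2 a e)) B := by
  have h : tau (ZMod L) a e 1 = C ((b2 a e : ℤ) : ZMod L) + X * 1 := by
    show X + C ((b2 a e : ℤ) : ZMod L) = _
    ring
  rw [h, sg_self, pk_C_add, zl_val, pk_one, mul_one]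
  · rfl
  · rw [mul_one]
    refine lt_of_le_of_lt (natDegree_add_le _ _) ?_
    rw [natDegree_C, natDegree_X]
    norm_num

theorem tau2 (a e : ℕ) : pk (sg (tau (ZMod L) a e 2)) =
    Nat.add (zl (b3 a e)) (Nat.mul B (zl (b1 a e - 48))) := by
  have h : tau (ZMod L) a e 2 = C ((b3 a e : ℤ) : ZMod L) +
      X * C ((b1 a e - 48 : ℤ) : ZMod L) := by
    show C ((b1 a e - 48 : ℤ) : ZMod L) * X + C ((b3 a e : ℤ) : ZMod L) = _
    ring
  rw [h, sg_self, pk_C_add, zl_val, pk_C, zl_val]
  · rfl
  · refine lt_of_le_of_lt (natDegree_add_le _ _) ?_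
    rw [natDegree_C]
    refine max_lt (by norm_num) (lt_of_le_of_lt natDegree_mul_le ?_)
    rw [natDegree_C]
    have := natDegree_X_le (R := ZMod L)
    omega

/-- Loop for `tau`. -/
noncomputable def tauL {α : Type} (NM : ℕ) (K : ℕ → ℕ → ℕ → α) (n : ℕ) : ℕ → ℕ → ℕ → α :=
  Nat.rec (motive := fun _ => ℕ → ℕ → ℕ → α) K
    (fun _ ih x0 x1 x2 => force (nxtTau NM x0 x1 x2) fun x3 => ih x1 x2 x3) n

theorem tauL_spec {α : Type} (K : ℕ → ℕ → ℕ → α) (a e n c : ℕ) :
    tauL (pk (-SSP)) K n (pk (sg (tau (ZMod L) a e c))) (pk (sg (tau (ZMod L) a e (c + 1))))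
      (pk (sg (tau (ZMod L) a e (c + 2)))) =
    K (pk (sg (tau (ZMod L) a e (c + n)))) (pk (sg (tau (ZMod L) a e (c + n + 1))))
      (pk (sg (tau (ZMod L) a e (c + n + 2)))) := by
  induction n generalizing c with
  | zero => rfl
  | succ n ih =>
    have h : tauL (pk (-SSP)) K (n + 1) (pk (sg (tau (ZMod L) a e c)))
        (pk (sg (tau (ZMod L) a e (c + 1)))) (pk (sg (tau (ZMod L) a e (c + 2)))) =
        force (nxtTau (pk (-SSP)) (pk (sg (tau (ZMod L) a e c)))
          (pk (sg (tau (ZMod L) a e (c + 1)))) (pk (sg (tau (ZMod L) a e (c + 2))))) (fun x3 =>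
          tauL (pk (-SSP)) K n (pk (sg (tau (ZMod L) a e (c + 1))))
            (pk (sg (tau (ZMod L) a e (c + 2)))) x3) := rfl
    have e3 : tau (ZMod L) a e (c + 3) = -48 * tau (ZMod L) a e (c + 2) +
      (X - 768) * tau (ZMod L) a e (c + 1) - 4096 * tau (ZMod L) a e c := rfl
    rw [h, force_eq, nxtTau_spec, ← e3, ih (c + 1)]
    have e4 : c + 1 + n = c + (n + 1) := by omega
    rw [e4]

/-- Loop for the columns. -/
noncomputable def colsL (NM : ℕ) (n : ℕ) : ℕ → ℕ → ℕ → List ℕ :=
  Nat.rec (motive := fun _ => ℕ → ℕ → ℕ → List ℕ) (fun _ _ _ => [])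
    (fun _ ih t0 t1 t2 => t0 :: force (nxtCol NM t0 t1 t2) fun t3 => ih t1 t2 t3) n

/-- The reduced columns from index `i` on. -/
noncomputable def cpl (d a e : ℕ) : ℕ → ℕ → List (ZMod L)[X]
  | 0, _ => []
  | n + 1, i => sg (tcol (ZMod L) d a e i) :: cpl d a e n (i + 1)

theorem cpl_length (d a e n i : ℕ) : (cpl d a e n i).length = n := by
  induction n generalizing i with
  | zero => rfl
  | succ n ih => simp [cpl, ih]

theorem cpl_getD (d a e n i j : ℕ) (hj : j < n) :
    (cpl d a e n i).getD j 0 = sg (tcol (ZMod L) d a e (i + j)) := by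
  induction n generalizing i j with
  | zero => omega
  | succ n ih =>
    cases j with
    | zero => rfl
    | succ j =>
      have : (cpl d a e (n + 1) i).getD (j + 1) 0 = (cpl d a e n (i + 1)).getD j 0 := rfl
      rw [this, ih _ _ (by omega)]
      congr 2
      omega

theorem cpl_lt (d a e n i : ℕ) : ∀ c ∈ cpl d a e n i, c.natDegree < 96 := by
  induction n generalizing i with
  | zero => intro c hc; simp [cpl] at hc
  | succ n ih =>
    intro c hc
    rcases List.mem_cons.1 hc with rfl | hc
    · exact sg_lt _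
    · exact ih _ c hc

theorem colsL_spec (d a e n i : ℕ) :
    colsL (pk (-SSP)) n (pk (sg (tcol (ZMod L) d a e i)))
      (pk (sg (tcol (ZMod L) d a e (i + 1)))) (pk (sg (tcol (ZMod L) d a e (i + 2)))) =
    (cpl d a e n i).map pk := by
  induction n generalizing i with
  | zero => rfl
  | succ n ih =>
    have h : colsL (pk (-SSP)) (n + 1) (pk (sg (tcol (ZMod L) d a e i)))
        (pk (sg (tcol (ZMod L) d a e (i + 1)))) (pk (sg (tcol (ZMod L) d a e (i + 2)))) =
        pk (sg (tcol (ZMod L) d a e i)) :: force (nxtCol (pk (-SSP))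
          (pk (sg (tcol (ZMod L) d a e i)))
          (pk (sg (tcol (ZMod L) d a e (i + 1)))) (pk (sg (tcol (ZMod L) d a e (i + 2)))))
          (fun t3 => colsL (pk (-SSP)) n (pk (sg (tcol (ZMod L) d a e (i + 1))))
            (pk (sg (tcol (ZMod L) d a e (i + 2)))) t3) := rfl
    have e3 : tcol (ZMod L) d a e (i + 3) =
      (X ^ 2 - 1488 * X + 162000) * tcol (ZMod L) d a e (i + 2) -
      (1488 * X ^ 2 + 40773375 * X + 8748000000) * tcol (ZMod L) d a e (i + 1) -
      (X - 54000) ^ 3 * tcol (ZMod L) d a e i := rfl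
    rw [h, force_eq, nxtCol_spec, ← e3, ih (i + 1)]
    rfl

/-- Evaluation of a list (for the kernel). -/
noncomputable def lforce {α : Type} (l : List ℕ) : (List ℕ → α) → α :=
  List.rec (motive := fun _ => (List ℕ → α) → α) (fun K => K [])
    (fun x _ ih K => force x fun y => ih fun ys => K (y :: ys)) l

theorem lforce_eq {α : Type} (l : List ℕ) (K : List ℕ → α) : lforce l K = K l := by
  induction l generalizing K with
  | nil => rfl
  | cons x xs ih =>
    have h : lforce (x :: xs) K = force x fun y => lforce xs fun ys => K (y :: ys) := rfl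
    rw [h, force_eq, ih]

/-- Packed Krylov list. -/
noncomputable def kryN (cs : List ℕ) (m : ℕ) : ℕ → List ℕ :=
  Nat.rec (motive := fun _ => ℕ → List ℕ) (fun _ => [])
    (fun _ ih u => u :: force (red (lc cs u 0)) ih) m

theorem LT_lt {cs : List (ZMod L)[X]} {n : ℕ} (hn : 1 ≤ n) (hcs : ∀ c ∈ cs, c.natDegree < n)
    (g : (ZMod L)[X]) : (LT cs g).natDegree < n := by
  induction cs generalizing g with
  | nil => simp only [LT, natDegree_zero]; omega
  | cons c cs ih =>
    unfold LT
    refine lt_of_le_of_lt (natDegree_add_le _ _) (max_lt ?_ ?_)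
    · exact lt_of_le_of_lt (natDegree_C_mul_le _ _) (hcs c (by simp))
    · exact ih (fun c hc => hcs c (by simp [hc])) _

theorem kry_lt {cs : List (ZMod L)[X]} (hcs : ∀ c ∈ cs, c.natDegree < 96) (m : ℕ)
    (u : (ZMod L)[X]) (hu : u.natDegree < 96) : ∀ c ∈ kry cs m u, c.natDegree < 96 := by
  induction m generalizing u with
  | zero => intro c hc; simp [kry] at hc
  | succ m ih =>
    intro c hc
    rcases List.mem_cons.1 hc with rfl | hc
    · exact hu
    · exact ih _ (LT_lt (by norm_num) hcs u) c hc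

theorem kryN_spec {cs : List (ZMod L)[X]} (hcs : ∀ c ∈ cs, c.natDegree < 96)
    (hl : cs.length ≤ 200) (m : ℕ) (u : (ZMod L)[X]) :
    kryN (cs.map pk) m (pk u) = (kry cs m u).map pk := by
  induction m generalizing u with
  | zero => rfl
  | succ m ih =>
    have h : kryN (cs.map pk) (m + 1) (pk u) =
      pk u :: force (red (lc (cs.map pk) (pk u) 0)) (kryN (cs.map pk) m) := rfl
    rw [h, force_eq, lc_red (n := 96) (by norm_num) (by norm_num) hcs hl, ih]
    rfl

/-- Product of packed polynomials. -/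
noncomputable def prodN (fs : List ℕ) : ℕ :=
  List.rec (motive := fun _ => ℕ) 1 (fun p _ ih => red (Nat.mul p ih)) fs

theorem red_mul {p q : (ZMod L)[X]} (hp : p.natDegree < 97) (hq : q.natDegree < 97) :
    red (Nat.mul (pk p) (pk q)) = pk (p * q) := by
  apply ((Rp_pk hp).mul (Rp_pk hq)).red
  · have h5 : (L - 1) * (L - 1) = 1327104 := by unfold L; norm_num
    rw [h5]
    norm_num
  · norm_num

theorem natDegree_prod_le (fs : List (ZMod L)[X]) :
    fs.prod.natDegree ≤ (fs.map natDegree).sum := by
  induction fs with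
  | nil => simp
  | cons f fs ih =>
    rw [List.prod_cons, List.map_cons, List.sum_cons]
    exact le_trans natDegree_mul_le (Nat.add_le_add_left ih _)

theorem prodN_spec (fs : List (ZMod L)[X]) (h : (fs.map natDegree).sum ≤ 96) :
    prodN (fs.map pk) = pk fs.prod := by
  induction fs with
  | nil =>
    show 1 = pk ([] : List (ZMod L)[X]).prod
    rw [List.prod_nil, pk_one]
  | cons f fs ih =>
    rw [List.map_cons, List.sum_cons] at h
    have h1 : prodN ((f :: fs).map pk) = red (Nat.mul (pk f) (prodN (fs.map pk))) := rfl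
    have h2 := natDegree_prod_le fs
    rw [h1, ih (by omega), red_mul (by omega) (by omega), List.prod_cons]

/-- Selection. -/
noncomputable def sel (c x y : Bool) : Bool := Bool.rec (motive := fun _ => Bool) x y c

/-- No proper subproduct kills the start vector. -/
noncomputable def allE (us : List ℕ) (fs : List ℕ) : ℕ → Bool :=
  List.rec (motive := fun _ => ℕ → Bool) (fun _ => true)
    (fun f rest ih pre => sel
      (Nat.beq (red (lc us (red (Nat.mul pre (prodN rest))) 0)) 0)
      (force (red (Nat.mul pre f)) ih) false) fs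

theorem allE_cons (us : List ℕ) (f : ℕ) (fs : List ℕ) (pre : ℕ) :
    allE us (f :: fs) pre = sel
      (Nat.beq (red (lc us (red (Nat.mul pre (prodN fs))) 0)) 0)
      (force (red (Nat.mul pre f)) (allE us fs)) false := rfl

theorem allE_spec {us : List (ZMod L)[X]} (hus : ∀ c ∈ us, c.natDegree < 96)
    (hl : us.length ≤ 200) (fs : List (ZMod L)[X]) (pre : (ZMod L)[X])
    (h : pre.natDegree + (fs.map natDegree).sum ≤ 96)
    (ht : allE (us.map pk) (fs.map pk) (pk pre) = true) :
    ∀ i, i < fs.length → LT us (pre * (fs.eraseIdx i).prod) ≠ 0 := by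
  induction fs generalizing pre with
  | nil => intro i hi; simp at hi
  | cons f fs ih =>
    rw [List.map_cons, List.sum_cons] at h
    have h2 := natDegree_prod_le fs
    have ht' := ht
    rw [List.map_cons, allE_cons] at ht'
    rw [prodN_spec fs (by omega), red_mul (p := pre) (q := fs.prod) (by omega) (by omega),
      lc_red (n := 96) (by norm_num) (by norm_num) hus hl, force_eq,
      red_mul (p := pre) (q := f) (by omega) (by omega)] at ht'
    cases hb : Nat.beq (pk (LT us (pre * fs.prod))) 0 with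
    | true => rw [hb] at ht'; exact absurd ht' (by simp [sel])
    | false =>
      rw [hb] at ht'
      have ht2 : allE (us.map pk) (fs.map pk) (pk (pre * f)) = true := ht'
      have hd : (pre * f).natDegree ≤ pre.natDegree + f.natDegree := natDegree_mul_le
      have h3 := ih (pre * f) (by omega) ht2
      intro i hi
      cases i with
      | zero =>
        rw [List.eraseIdx_cons_zero]
        intro h4
        rw [h4, pk_zero] at hb
        exact absurd hb (by simp)
      | succ i =>
        rw [List.eraseIdx_cons_succ, List.prod_cons]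
        have h5 := h3 i (by simpa using hi)
        have e1 : pre * (f * (fs.eraseIdx i).prod) = pre * f * (fs.eraseIdx i).prod := by ring
        rw [e1]
        exact h5

end MTT
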