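import Pool.Agent.Lib_MP_bfd926_tb.TChk

/-!
The check of one class and its soundness.
-/

namespace MTT

open Polynomial

attribute [local irreducible] upk pk SSP

/-- Data of a factor: degree, polynomial, reciprocal, inverse (base 2048). -/
inductive FD where
  | mk (r P I U : ℕ) : FD

/-- The degree. -/
noncomputable def FD.dg (f : FD) : ℕ := FD.rec (motive := fun _ => ℕ) (fun r _ _ _ => r) f

/-- The packed polynomial. -/
noncomputable def FD.pn (f : FD) : ℕ :=
  FD.rec (motive := fun _ => ℕ) (fun r P _ _ => unp (Nat.add r 1) P) f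

/-- The check. -/
noncomputable def FD.ok (f : FD) : Bool :=
  FD.rec (motive := fun _ => Bool) (fun r P I U => facOK r P I U) f

/-- The polynomial. -/
noncomputable def FD.pol (f : FD) : (ZMod L)[X] :=
  FD.rec (motive := fun _ => (ZMod L)[X]) (fun r P _ _ => upk (r + 1) P) f

/-- All checks. -/
noncomputable def facs (fl : List FD) : Bool :=
  List.rec (motive := fun _ => Bool) true (fun f _ ih => sel f.ok false ih) fl

/-- Sum of the degrees. -/
noncomputable def dsum (fl : List FD) : ℕ :=
  List.rec (motive := fun _ => ℕ) 0 (fun f _ ih => Nat.add f.dg ih) fl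

/-- Number of factors. -/
noncomputable def flen (fl : List FD) : ℕ :=
  List.rec (motive := fun _ => ℕ) 0 (fun _ _ ih => Nat.add 1 ih) fl

/-- Packed polynomials. -/
noncomputable def pkl (fl : List FD) : List ℕ :=
  List.rec (motive := fun _ => List ℕ) [] (fun f _ ih => f.pn :: ih) fl

/-- The last part of the check, from the columns. -/
noncomputable def chkC (st : ℕ) (fl : List FD) (cs0 : List ℕ) : Bool :=
  lforce cs0 fun cs => lforce (kryN cs 97 (Nat.pow B st)) fun us =>
    lforce (pkl fl) fun fs =>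
    sel (Nat.beq (red (lc us (prodN fs) 0)) 0) false (allE us fs 1)

/-- The middle part of the check, from five values of `tau`. -/
noncomputable def chkT (NM st : ℕ) (fl : List FD) (x0 x1 x2 : ℕ) : Bool :=
  force (nxtTau NM x0 x1 x2) fun x3 => force (nxtTau NM x1 x2 x3) fun x4 =>
    force (upN NM x2 x3 x4) fun t1 =>
    force (upN NM (upN NM x0 x1 x2) (upN NM x1 x2 x3) t1) fun t2 =>
    chkC st fl (colsL NM 96 x4 t1 t2)

/-- The check of one class. -/
noncomputable def clsOK (d a e st : ℕ) (fl : List FD) (bd : ℕ) : Bool :=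
  sel (facs fl) false (sel (Nat.ble 5 d) false (sel (Nat.ble (dsum fl) 96) false
    (sel (Nat.ble st 95) false
    (sel (Nat.ble (Nat.add (flen fl) (Nat.sub 96 (dsum fl))) bd) false
      (force (red (Nat.mul 1152 (unp 97 SSLIT))) fun NM =>
        tauL NM (chkT NM st fl) (Nat.sub d 5) (zl (b1 a e)) (Nat.add (zl (b2 a e)) B)
          (Nat.add (zl (b3 a e)) (Nat.mul B (zl (b1 a e - 48)))))))))

theorem sel_iff {c y : Bool} : sel c false y = true ↔ c = true ∧ y = true := by
  cases c <;> cases y <;> simp [sel]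

theorem facs_cons (f : FD) (fl : List FD) : facs (f :: fl) = sel f.ok false (facs fl) := rfl

theorem dsum_cons (f : FD) (fl : List FD) : dsum (f :: fl) = f.dg + dsum fl := rfl

theorem flen_eq (fl : List FD) : flen fl = fl.length := by
  induction fl with
  | nil => rfl
  | cons f fl ih =>
    have : flen (f :: fl) = 1 + flen fl := rfl
    rw [this, ih, List.length_cons]
    omega

theorem ok_spec (f : FD) (h : f.ok = true) :
    f.pol.Monic ∧ f.pol.natDegree = f.dg ∧ Irreducible f.pol ∧ f.pn = pk f.pol := by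
  obtain ⟨r, P, I, U⟩ := f
  have h' : facOK r P I U = true := h
  have h1 := facOK_spec h'
  refine ⟨h1.1, h1.2.1, h1.2.2, ?_⟩
  have h2 : r ≤ 99 := by
    unfold facOK at h'
    cases hb : Nat.beq r 1 with
    | true =>
      have := Nat.eq_of_beq_eq_true hb
      omega
    | false =>
      rw [hb] at h'
      simp only [force_eq] at h'
      rw [Bool.and_eq_true, Bool.and_eq_true, Bool.and_eq_true] at h'
      exact Nat.le_of_ble_eq_true h'.1.1.2
  exact unp_eq (by show r + 1 ≤ 199; omega) P

theorem facs_spec (fl : List FD) (h : facs fl = true) :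
    (∀ p ∈ fl.map FD.pol, Irreducible p) ∧ ((fl.map FD.pol).map natDegree).sum = dsum fl ∧
      pkl fl = (fl.map FD.pol).map pk := by
  induction fl with
  | nil =>
    refine ⟨by simp, ?_, rfl⟩
    rfl
  | cons f fl ih =>
    rw [facs_cons, sel_iff] at h
    obtain ⟨h1, h2⟩ := h
    obtain ⟨h3, h4, h5⟩ := ih h2
    obtain ⟨h6, h7, h8, h9⟩ := ok_spec f h1
    refine ⟨?_, ?_, ?_⟩
    · intro p hp
      rw [List.map_cons] at hp
      rcases List.mem_cons.1 hp with rfl | hp
      · exact h8
      · exact h3 p hp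
    · rw [List.map_cons, List.map_cons, List.sum_cons, h7, h4, dsum_cons]
    · rw [List.map_cons, List.map_cons, ← h9, ← h5]
      rfl

/-- The matrix of `T_2` on the supersingular module, from `tcol`. -/
noncomputable def Tm (d a e : ℕ) : Matrix (Fin 96) (Fin 96) (ZMod L) :=
  Matrix.of fun j i => ((tcol (ZMod L) d a e (i : ℕ)) %ₘ SSP).coeff (j : ℕ)

theorem lmat_eq (d a e : ℕ) : lmat 96 (cpl d a e 96 0) = Tm d a e := by
  ext j i
  have h := cpl_getD d a e 96 0 (i : ℕ) i.2
  rw [zero_add] at h
  simp only [lmat, Tm, Matrix.of_apply]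
  rw [h]
  rfl

theorem natDegree_prod_monic (fl : List FD) (h : facs fl = true) :
    (fl.map FD.pol).prod.natDegree = dsum fl := by
  induction fl with
  | nil => simp [dsum]
  | cons f fl ih =>
    rw [facs_cons, sel_iff] at h
    obtain ⟨h1, h2⟩ := h
    obtain ⟨h6, h7, h8, h9⟩ := ok_spec f h1
    have h10 : ∀ gl : List FD, facs gl = true → (gl.map FD.pol).prod.Monic := by
      intro gl
      induction gl with
      | nil => intro _; simp
      | cons g gl ih =>
        intro hg
        rw [facs_cons, sel_iff] at hg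
        rw [List.map_cons, List.prod_cons]
        exact (ok_spec g hg.1).1.mul (ih hg.2)
    rw [List.map_cons, List.prod_cons, h6.natDegree_mul (h10 fl h2), h7, ih h2, dsum_cons]

theorem chkC_spec {d a e st : ℕ} {fl : List FD} (hf : facs fl = true) (hd : dsum fl ≤ 96)
    (hst : st ≤ 95) (h : chkC st fl ((cpl d a e 96 0).map pk) = true) :
    nfac (Tm d a e).charpoly ≤ fl.length + (96 - dsum fl) := by
  obtain ⟨h1, h2, h3⟩ := facs_spec fl hf
  have hcs := cpl_lt d a e 96 0
  have hcl := cpl_length d a e 96 0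
  unfold chkC at h
  rw [lforce_eq, lforce_eq, lforce_eq, h3] at h
  have hX : Nat.pow B st = pk (X ^ st) := (pk_X_pow st).symm
  rw [hX, kryN_spec hcs (by omega), sel_iff] at h
  obtain ⟨h4, h5⟩ := h
  have hu : ((X : (ZMod L)[X]) ^ st).natDegree < 96 := by
    refine lt_of_le_of_lt (natDegree_X_pow_le st) (by omega)
  have hus := kry_lt hcs 97 (X ^ st) hu
  have hul := kry_length (cpl d a e 96 0) 97 (X ^ st)
  rw [prodN_spec _ (by omega), lc_red (n := 96) (by norm_num) (by norm_num) hus (by omega)] at h4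
  have h6 : LT (kry (cpl d a e 96 0) 97 (X ^ st)) (fl.map FD.pol).prod = 0 :=
    pk_eq_zero (Nat.eq_of_beq_eq_true h4)
  rw [← pk_one] at h5
  have h7 := allE_spec hus (by omega) (fl.map FD.pol) 1
    (by rw [natDegree_one]; omega) h5
  have h8 := natDegree_prod_monic fl hf
  have key := cyc_bound (lmat 96 (cpl d a e 96 0)) (vec 96 (X ^ st)) (fl.map FD.pol) h1
    (by
      rw [aeval_LT (cpl d a e 96 0) hcl 97 _ _ (by omega), h6, vec_zero])
    (by
      intro i hi
      have h9 : ((fl.map FD.pol).eraseIdx i).prod.natDegree < 97 := by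
        have h10 := List.mul_prod_eraseIdx (l := fl.map FD.pol) hi
          (fun a' _ => Commute.all _ _)
        have h11 : (fl.map FD.pol).prod ≠ 0 := by
          intro h12
          rw [List.prod_eq_zero_iff] at h12
          exact (h1 0 h12).ne_zero rfl
        have h12 : ((fl.map FD.pol).eraseIdx i).prod ∣ (fl.map FD.pol).prod :=
          ⟨_, by rw [← h10]; ring⟩
        have := natDegree_le_of_dvd h12 h11
        omega
      rw [aeval_LT (cpl d a e 96 0) hcl 97 _ _ h9]
      intro h13
      have h14 := h7 i hi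
      rw [one_mul] at h14
      exact h14 (vec_inj (LT_lt (by norm_num) hus _) h13))
  rw [lmat_eq, h8, List.length_map] at key
  exact key

theorem clsOK_spec {d a e st : ℕ} {fl : List FD} {bd : ℕ} (h : clsOK d a e st fl bd = true) :
    nfac (Tm d a e).charpoly ≤ bd := by
  unfold clsOK at h
  rw [sel_iff, sel_iff, sel_iff, sel_iff, sel_iff] at h
  obtain ⟨hf, h5, hd, hst, hb, h⟩ := h
  have h5' : 5 ≤ d := Nat.le_of_ble_eq_true h5
  have hd' : dsum fl ≤ 96 := Nat.le_of_ble_eq_true hd
  have hst' : st ≤ 95 := Nat.le_of_ble_eq_true hst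
  have hb' : flen fl + (96 - dsum fl) ≤ bd := Nat.le_of_ble_eq_true hb
  have hNM : red (Nat.mul 1152 (unp 97 SSLIT)) = pk (-SSP) := by
    have hN : SSP.natDegree < 97 := by rw [SSP_natDegree]; norm_num
    have h0 : unp 97 SSLIT = pk SSP := by
      have h00 := unp_eq (n := 97) (by norm_num) SSLIT
      rw [SSP_eq] at h00
      exact h00
    rw [h0]
    have h6 := ((Rp_pk hN).smul 1152).red (by unfold L; norm_num) (by norm_num)
    refine Eq.trans h6 ?_
    rw [cst (x := 1152) (z := -1) (by decide)]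
    have h7 : ((-1 : ℤ) : (ZMod L)[X]) * SSP = -SSP := by push_cast; ring
    rw [h7]
  rw [force_eq, hNM, ← tau0, ← tau1, ← tau2, tauL_spec] at h
  unfold chkT at h
  obtain ⟨c, rfl⟩ : ∃ c, d = c + 5 := ⟨d - 5, by omega⟩
  have e0 : 0 + Nat.sub (c + 5) 5 = c := by
    show 0 + (c + 5 - 5) = c
    omega
  rw [e0] at h
  have e3 : tau (ZMod L) a e (c + 3) = -48 * tau (ZMod L) a e (c + 2) +
      (X - 768) * tau (ZMod L) a e (c + 1) - 4096 * tau (ZMod L) a e c := rfl
  have e4 : tau (ZMod L) a e (c + 4) = -48 * tau (ZMod L) a e (c + 3) +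
      (X - 768) * tau (ZMod L) a e (c + 2) - 4096 * tau (ZMod L) a e (c + 1) := rfl
  rw [force_eq, nxtTau_spec, ← e3, force_eq, nxtTau_spec, ← e4, force_eq, upN_spec, force_eq,
    upN_spec, upN_spec, upN_spec] at h
  have t0 : tau (ZMod L) a e (c + 4) = tcol (ZMod L) (c + 5) a e 0 := rfl
  have t1 : up (tau (ZMod L) a e (c + 2)) (tau (ZMod L) a e (c + 3)) (tau (ZMod L) a e (c + 4)) =
    tcol (ZMod L) (c + 5) a e (0 + 1) := rfl
  have t2 : up (up (tau (ZMod L) a e c) (tau (ZMod L) a e (c + 1)) (tau (ZMod L) a e (c + 2)))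
      (up (tau (ZMod L) a e (c + 1)) (tau (ZMod L) a e (c + 2)) (tau (ZMod L) a e (c + 3)))
      (up (tau (ZMod L) a e (c + 2)) (tau (ZMod L) a e (c + 3)) (tau (ZMod L) a e (c + 4))) =
    tcol (ZMod L) (c + 5) a e (0 + 2) := rfl
  rw [t2, t1, t0, colsL_spec] at h
  have key := chkC_spec hf hd' hst' h
  rw [flen_eq] at hb'
  exact le_trans key hb'

end MTT
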