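import Mathlib

/-!
Irreducibility certificate (Rabin) for polynomials over a prime field.
-/

namespace MTT

open Polynomial

theorem rabin {l : ℕ} [Fact l.Prime] (P : (ZMod l)[X]) (r : ℕ) (hP : P.Monic)
    (hr : P.natDegree = r) (hr1 : 1 ≤ r) (h1 : P ∣ X ^ (l ^ r) - X)
    (h2 : ∀ J, 1 ≤ J → J < r → J ∣ r → IsCoprime P (X ^ (l ^ J) - X)) : Irreducible P := by
  have hP0 : P ≠ 0 := hP.ne_zero
  have hPu : ¬ IsUnit P := by
    intro h
    have := natDegree_eq_zero_of_isUnit h
    omega
  obtain ⟨Q, hQ, E, hE⟩ := WfDvdMonoid.exists_irreducible_factor hPu hP0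
  have hQ0 : Q ≠ 0 := hQ.ne_zero
  have hE0 : E ≠ 0 := by rintro rfl; simp at hE; exact hP0 hE
  have hdeg : Q.natDegree + E.natDegree = r := by
    rw [← hr, hE, natDegree_mul hQ0 hE0]
  by_cases ht : Q.natDegree = r
  · have : E.natDegree = 0 := by omega
    have hEu : IsUnit E := by
      rw [natDegree_eq_zero] at this
      obtain ⟨c, rfl⟩ := this
      have hc : c ≠ 0 := by rintro rfl; simp at hE0
      exact isUnit_C.mpr (isUnit_iff_ne_zero.mpr hc)
    have : Associated Q P := ⟨hEu.unit, by rw [hE]; rfl⟩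
    exact this.irreducible hQ
  · exfalso
    have htr : Q.natDegree < r := by omega
    haveI : Fact (Irreducible Q) := ⟨hQ⟩
    let K := AdjoinRoot Q
    haveI : FiniteDimensional (ZMod l) K := (AdjoinRoot.powerBasis hQ0).finite
    haveI : Finite K := Module.finite_of_finite (ZMod l)
    haveI : Fintype K := Fintype.ofFinite K
    have hcard : Fintype.card K = l ^ Q.natDegree := by
      rw [Module.card_eq_pow_finrank (K := ZMod l) (V := K), ZMod.card,
        (AdjoinRoot.powerBasis hQ0).finrank]
      rfl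
    let φ : K → K := fun z => z ^ l
    have hφ : ∀ n z, φ^[n] z = z ^ (l ^ n) := by
      intro n
      induction n with
      | zero => intro z; simp
      | succ n ih =>
        intro z
        rw [Function.iterate_succ_apply, ih, pow_succ', pow_mul]
    let α : K := AdjoinRoot.root Q
    have hroot : ∀ n, Q ∣ X ^ (l ^ n) - X ↔ α ^ (l ^ n) = α := by
      intro n
      rw [← AdjoinRoot.mk_eq_zero]
      simp only [map_sub, map_pow, AdjoinRoot.mk_X]
      exact sub_eq_zero
    have ha : Function.IsPeriodicPt φ r α := by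
      unfold Function.IsPeriodicPt Function.IsFixedPt
      rw [hφ]
      exact (hroot r).1 ((Dvd.intro E hE.symm).trans h1)
    have hb : Function.IsPeriodicPt φ Q.natDegree α := by
      unfold Function.IsPeriodicPt Function.IsFixedPt
      rw [hφ, ← hcard]
      exact FiniteField.pow_card α
    have hg := ha.gcd hb
    have hQpos : 0 < Q.natDegree := hQ.natDegree_pos
    have hg1 : 1 ≤ r.gcd Q.natDegree := Nat.gcd_pos_of_pos_right _ hQpos
    have hg2 : r.gcd Q.natDegree < r :=
      lt_of_le_of_lt (Nat.le_of_dvd hQpos (Nat.gcd_dvd_right _ _)) htr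
    have hc := h2 _ hg1 hg2 (Nat.gcd_dvd_left _ _)
    have hd : Q ∣ X ^ (l ^ (r.gcd Q.natDegree)) - X := by
      rw [hroot]
      have := hg
      unfold Function.IsPeriodicPt Function.IsFixedPt at this
      rwa [hφ] at this
    exact hQ.not_isUnit (hc.isUnit_of_dvd' (Dvd.intro E hE.symm) hd)

end MTT
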