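import Pool.Agent.Lib_MP_bfd926_tb.TMod
import Pool.Agent.Lib_MP_bfd926_tb.TIrr

/-!
Kernel check of irreducibility.
-/

namespace MTT

open Polynomial

theorem pk_inj {p q : (ZMod L)[X]} (h : pk p = pk q) : p = q := by
  have key : ∀ n, ∀ p q : (ZMod L)[X], p.natDegree < n → q.natDegree < n → pk p = pk q →
      p = q := by
    intro n
    induction n with
    | zero => intro p q hp; omega
    | succ n ih =>
      intro p q hp hq h
      have h1 : (p.coeff 0).val = (q.coeff 0).val := by rw [← pk_mod_B, ← pk_mod_B, h]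
      have h2 : pk p.divX = pk q.divX := by rw [← pk_div_B, ← pk_div_B, h]
      have h3 : p.coeff 0 = q.coeff 0 := ZMod.val_injective L h1
      by_cases hn : n = 0
      · subst hn
        rw [eq_C_of_natDegree_eq_zero (by omega : p.natDegree = 0),
          eq_C_of_natDegree_eq_zero (by omega : q.natDegree = 0), h3]
      · have hp' := natDegree_divX_eq_natDegree_tsub_one (p := p)
        have hq' := natDegree_divX_eq_natDegree_tsub_one (p := q)
        have h4 : p.divX = q.divX := ih _ _ (by omega) (by omega) h2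
        rw [← divX_mul_X_add p, ← divX_mul_X_add q, h3, h4]
  exact key (max p.natDegree q.natDegree + 1) p q (by omega) (by omega) h

theorem pk_X_mul (p : (ZMod L)[X]) : pk (X * p) = B * pk p := by
  rw [pk_divX]
  have h1 : (X * p).divX = p := by
    ext i
    rw [coeff_divX, coeff_X_mul]
  rw [h1, coeff_X_mul_zero, ZMod.val_zero, zero_add]

theorem pk_one : pk 1 = 1 := by
  haveI : Fact (1 < L) := ⟨by unfold L; norm_num⟩
  rw [pk_divX]
  have h1 : (1 : (ZMod L)[X]).divX = 0 := by
    have := divX_C (1 : ZMod L)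
    rwa [C_1] at this
  rw [h1, pk_zero, coeff_one_zero, ZMod.val_one, mul_zero, add_zero]

theorem pk_X_pow (n : ℕ) : pk (X ^ n) = B ^ n := by
  induction n with
  | zero => rw [pow_zero, pow_zero, pk_one]
  | succ n ih => rw [pow_succ', pk_X_mul, ih, pow_succ']

theorem pk_X : pk X = B := by
  have := pk_X_pow 1
  rwa [pow_one, pow_one] at this

theorem Rp.cons {a : ℕ} {p : (ZMod L)[X]} {b n c : ℕ} (h : Rp a p b n) (hc : c ≤ b) :
    Rp (c + B * a) (C (c : ZMod L) + X * p) b (n + 1) := by
  obtain ⟨f, rfl, rfl, h3, h4⟩ := h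
  refine ⟨C c + X * f, by rw [eval_add, eval_C, eval_mul, eval_X],
    by rw [Polynomial.map_add, map_C, Polynomial.map_mul, map_X]; rfl, ?_, ?_⟩
  · intro i
    cases i with
    | zero => rw [coeff_add, coeff_C_zero, coeff_X_mul_zero]; omega
    | succ i =>
      rw [coeff_add, coeff_X_mul, coeff_C, if_neg (by omega), zero_add]
      exact h3 i
  · refine lt_of_le_of_lt (natDegree_add_le _ _) ?_
    have h5 : (X * f).natDegree ≤ n := by
      refine le_trans natDegree_mul_le ?_
      have := natDegree_X_le (R := ℕ)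
      omega
    rw [natDegree_C]
    omega

/-- Decoding of a number with `n` digits in base `2048`. -/
noncomputable def dec (n : ℕ) : ℕ → ℕ :=
  Nat.rec (motive := fun _ => ℕ → ℕ) (fun _ => 0)
    (fun _ ih a => Nat.add (Nat.mod a 2048) (Nat.mul B (ih (Nat.div a 2048)))) n

/-- The polynomial with these digits as coefficients. -/
noncomputable def upk : ℕ → ℕ → (ZMod L)[X]
  | 0, _ => 0
  | n + 1, a => C ((a % 2048 : ℕ) : ZMod L) + X * upk n (a / 2048)

theorem dec_spec (n a : ℕ) : Rp (dec n a) (upk n a) 2047 (n + 1) := by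
  induction n generalizing a with
  | zero => exact ⟨0, by simp [dec], by simp [upk], by simp, by simp⟩
  | succ n ih =>
    have h := (ih (a / 2048)).cons (c := a % 2048) (by omega)
    exact h

theorem upk_natDegree {n : ℕ} (hn : 1 ≤ n) (a : ℕ) : (upk n a).natDegree < n := by
  induction n generalizing a with
  | zero => omega
  | succ n ih =>
    unfold upk
    refine lt_of_le_of_lt (natDegree_add_le _ _) ?_
    rw [natDegree_C]
    have h1 : (X * upk n (a / 2048)).natDegree < n + 1 := by
      by_cases hn0 : n = 0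
      · subst hn0
        simp [upk]
      · refine lt_of_le_of_lt natDegree_mul_le ?_
        have := natDegree_X_le (R := ZMod L)
        have := ih (by omega) (a / 2048)
        omega
    omega

/-- Decoded and reduced. -/
noncomputable def unp (n a : ℕ) : ℕ := red (dec n a)

theorem unp_eq {n : ℕ} (hn : n ≤ 199) (a : ℕ) : unp n a = pk (upk n a) :=
  (dec_spec n a).red (by norm_num) (by omega)

/-- The loop of the irreducibility test. -/
noncomputable def rloop (s s2 I NP r U : ℕ) (n : ℕ) : ℕ → ℕ → ℕ → Bool :=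
  Nat.rec (motive := fun _ => ℕ → ℕ → ℕ → Bool)
    (fun _ y acc => Bool.rec (motive := fun _ => Bool) false
      (Nat.beq (mm s s2 I NP acc U) 1) (Nat.beq y B))
    (fun _ ih J y acc =>
      force (powL s s2 I NP y) fun y' =>
      Bool.rec (motive := fun _ => Bool) (ih (Nat.succ J) y' acc)
        (force (mm s s2 I NP acc (red (Nat.add y (Nat.mul 1152 B)))) fun a' =>
          ih (Nat.succ J) y' a')
        (Nat.beq (Nat.mod r J) 0)) n

theorem rloop_spec {P I U : (ZMod L)[X]} {r : ℕ} (h : MD P r I) (hU : U.natDegree < r)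
    (n J : ℕ) (A : (ZMod L)[X])
    (ht : rloop (64 * r) (64 * (r - 2)) (pk I) (pk (-P)) r (pk U) n J
      (pk (X ^ (L ^ J) %ₘ P)) (pk (A %ₘ P)) = true) :
    X ^ (L ^ (J + n)) %ₘ P = X ∧ ∃ A' : (ZMod L)[X], A ∣ A' ∧
      (∀ J', J ≤ J' → J' < J + n → J' ∣ r → (X ^ (L ^ J') - X) ∣ A') ∧ (A' * U) %ₘ P = 1 := by
  have hr1 : 1 ≤ r := by have := h.r2; omega
  have hlt : ∀ p : (ZMod L)[X], (p %ₘ P).natDegree < r := fun p => mod_lt h.monic h.deg hr1
  induction n generalizing J A with
  | zero =>
    have ht' : Bool.rec (motive := fun _ => Bool) false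
      (Nat.beq (mm (64 * r) (64 * (r - 2)) (pk I) (pk (-P)) (pk (A %ₘ P)) (pk U)) 1)
      (Nat.beq (pk (X ^ (L ^ J) %ₘ P)) B) = true := ht
    cases hb : Nat.beq (pk (X ^ (L ^ J) %ₘ P)) B with
    | false => rw [hb] at ht'; exact absurd ht' (by simp)
    | true =>
      rw [hb] at ht'
      have h1 : mm (64 * r) (64 * (r - 2)) (pk I) (pk (-P)) (pk (A %ₘ P)) (pk U) = 1 :=
        Nat.eq_of_beq_eq_true ht'
      have h2 : pk (X ^ (L ^ J) %ₘ P) = B := Nat.eq_of_beq_eq_true hb
      rw [mm_spec h (hlt _) hU] at h1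
      refine ⟨?_, A, dvd_rfl, ?_, ?_⟩
      · rw [add_zero]
        apply pk_inj
        rw [h2, pk_X]
      · intro J' hJ1 hJ2
        omega
      · have hmod : (A * U) %ₘ P = ((A %ₘ P) * U) %ₘ P := by
          have hU' : U %ₘ P = U := by
            rw [modByMonic_eq_self_iff h.monic, degree_eq_natDegree h.monic.ne_zero, h.deg]
            exact (degree_lt_iff_coeff_zero _ _).2 (coeff_of_natDegree_lt hU)
          rw [← mul_mod_mod h.monic, hU']
        rw [hmod]
        apply pk_inj
        rw [h1, pk_one]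
  | succ n ih =>
    have hpow : powL (64 * r) (64 * (r - 2)) (pk I) (pk (-P)) (pk (X ^ (L ^ J) %ₘ P)) =
        pk (X ^ (L ^ (J + 1)) %ₘ P) := by
      rw [powL_spec h, ← pow_mul, ← pow_succ]
    have ht' : force (powL (64 * r) (64 * (r - 2)) (pk I) (pk (-P)) (pk (X ^ (L ^ J) %ₘ P)))
      (fun y' => Bool.rec (motive := fun _ => Bool)
        (rloop (64 * r) (64 * (r - 2)) (pk I) (pk (-P)) r (pk U) n (Nat.succ J) y'
          (pk (A %ₘ P)))
        (force (mm (64 * r) (64 * (r - 2)) (pk I) (pk (-P)) (pk (A %ₘ P))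
          (red (Nat.add (pk (X ^ (L ^ J) %ₘ P)) (Nat.mul 1152 B)))) fun a' =>
          rloop (64 * r) (64 * (r - 2)) (pk I) (pk (-P)) r (pk U) n (Nat.succ J) y' a')
        (Nat.beq (Nat.mod r J) 0)) = true := ht
    rw [force_eq, hpow] at ht'
    cases hb : Nat.beq (Nat.mod r J) 0 with
    | false =>
      rw [hb] at ht'
      obtain ⟨h1, A', h2, h3, h4⟩ := ih (J + 1) A ht'
      refine ⟨?_, A', h2, ?_, h4⟩
      · rw [← h1]; congr 3; omega
      · intro J' hJ1 hJ2 hJ3
        rcases Nat.lt_or_ge J J' with h5 | h5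
        · exact h3 J' h5 (by omega) hJ3
        · have : J' = J := by omega
          subst this
          exfalso
          have h6 : Nat.mod r J' = 0 := Nat.mod_eq_zero_of_dvd hJ3
          rw [h6] at hb
          exact absurd hb (by decide)
    | true =>
      rw [hb] at ht'
      have e1 : red (Nat.add (pk (X ^ (L ^ J) %ₘ P)) (Nat.mul 1152 B)) =
          pk (X ^ (L ^ J) %ₘ P - X) := by
        have hX : (X : (ZMod L)[X]).natDegree < r := by
          rw [natDegree_X]; have := h.r2; omega
        have h5 := (Rp_pk (hlt (X ^ (L ^ J)))).add ((Rp_pk hX).smul 1152)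
        have h6 := h5.red (by unfold L; norm_num) (by have := h.r99; omega)
        rw [pk_X] at h6
        have h7 : ((1152 : ℕ) : ZMod L) = -1 := by decide
        rw [h7] at h6
        have h8 : X ^ (L ^ J) %ₘ P + C (-1) * X = X ^ (L ^ J) %ₘ P - X := by
          rw [C_neg, C_1]; ring
        rw [h8] at h6
        exact h6
      have hlt2 : (X ^ (L ^ J) %ₘ P - X).natDegree < r := by
        refine lt_of_le_of_lt (natDegree_sub_le _ _) ?_
        have h5 := hlt (X ^ (L ^ J))
        have h6 : (X : (ZMod L)[X]).natDegree < r := by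
          rw [natDegree_X]; have := h.r2; omega
        exact max_lt h5 h6
      have e2 : ((A %ₘ P) * (X ^ (L ^ J) %ₘ P - X)) %ₘ P = (A * (X ^ (L ^ J) - X)) %ₘ P := by
        have hX : (X : (ZMod L)[X]) %ₘ P = X := by
          rw [modByMonic_eq_self_iff h.monic, degree_eq_natDegree h.monic.ne_zero, h.deg]
          rw [degree_X]
          have := h.r2
          exact_mod_cast (by omega : 1 < r)
        rw [← mul_mod_mod h.monic (a := A), sub_modByMonic, hX]
      have ht2 : force (mm (64 * r) (64 * (r - 2)) (pk I) (pk (-P)) (pk (A %ₘ P))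
          (red (Nat.add (pk (X ^ (L ^ J) %ₘ P)) (Nat.mul 1152 B)))) (fun a' =>
          rloop (64 * r) (64 * (r - 2)) (pk I) (pk (-P)) r (pk U) n (Nat.succ J)
            (pk (X ^ (L ^ (J + 1)) %ₘ P)) a') = true := ht'
      rw [force_eq, e1, mm_spec h (hlt _) hlt2, e2] at ht2
      obtain ⟨h1, A', h2, h3, h4⟩ := ih (J + 1) _ ht2
      refine ⟨?_, A', (Dvd.intro _ rfl).trans h2, ?_, h4⟩
      · rw [← h1]; congr 3; omega
      · intro J' hJ1 hJ2 hJ3
        rcases Nat.lt_or_ge J J' with h5 | h5
        · exact h3 J' h5 (by omega) hJ3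
        · have : J' = J := by omega
          subst this
          exact (Dvd.intro_left _ rfl).trans h2

/-- The check of one factor: degree, coefficients, reciprocal and inverse. -/
noncomputable def facOK (r P I U : ℕ) : Bool :=
  Bool.rec (motive := fun _ => Bool)
    (force (unp (r + 1) P) fun p => force (unp (r - 1) I) fun i => force (unp r U) fun u =>
      force (red (Nat.mul 1152 p)) fun np =>
      and (and (and (Nat.ble 2 r) (Nat.ble r 99)) (and (Nat.beq (Nat.shiftRight p (64 * r)) 1)
        (Nat.beq (Nat.shiftRight (red (Nat.mul p i)) (64 * r)) (Nat.pow B (r - 2)))))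
        (force (powL (64 * r) (64 * (r - 2)) i np B) fun y =>
          rloop (64 * r) (64 * (r - 2)) i np r u (r - 1) 1 y 1))
    (Nat.beq (Nat.shiftRight (unp 2 P) 64) 1) (Nat.beq r 1)

theorem monic_of_shift {p : (ZMod L)[X]} {r : ℕ} (h1 : p.natDegree < r + 1)
    (h2 : pk p >>> (64 * r) = 1) : p.Monic ∧ p.natDegree = r := by
  haveI : Fact (1 < L) := ⟨by unfold L; norm_num⟩
  rw [pk_shiftRight, ← pk_one] at h2
  have h3 := pk_inj h2
  have h4 : p.coeff r = 1 := by
    have := coeff_divX_iterate p r 0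
    rw [h3, zero_add, coeff_one_zero] at this
    exact this.symm
  have h5 : p.natDegree = r := by
    apply le_antisymm (by omega)
    apply le_natDegree_of_ne_zero
    rw [h4]
    exact one_ne_zero
  refine ⟨?_, h5⟩
  unfold Monic leadingCoeff
  rw [h5, h4]

theorem facOK_spec {r P I U : ℕ} (h : facOK r P I U = true) :
    (upk (r + 1) P).Monic ∧ (upk (r + 1) P).natDegree = r ∧ Irreducible (upk (r + 1) P) := by
  unfold facOK at h
  cases hb : Nat.beq r 1 with
  | true =>
    rw [hb] at h
    have hr : r = 1 := Nat.eq_of_beq_eq_true hb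
    subst hr
    have h1 : Nat.shiftRight (unp 2 P) 64 = 1 := Nat.eq_of_beq_eq_true h
    rw [unp_eq (by norm_num)] at h1
    have h2 := monic_of_shift (r := 1) (upk_natDegree (by norm_num) P) (by simpa using h1)
    refine ⟨h2.1, h2.2, ?_⟩
    apply irreducible_of_degree_eq_one
    rw [degree_eq_natDegree h2.1.ne_zero, h2.2]
    rfl
  | false =>
    rw [hb] at h
    simp only [force_eq] at h
    rw [Bool.and_eq_true, Bool.and_eq_true, Bool.and_eq_true, Bool.and_eq_true] at h
    obtain ⟨⟨⟨h2, h99⟩, hm, hi⟩, hl⟩ := h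
    have hr2 : 2 ≤ r := Nat.le_of_ble_eq_true h2
    have hr99 : r ≤ 99 := Nat.le_of_ble_eq_true h99
    have hm' := Nat.eq_of_beq_eq_true hm
    have hi' := Nat.eq_of_beq_eq_true hi
    rw [unp_eq (by omega)] at hm' hi' hl
    rw [unp_eq (by omega)] at hi' hl
    rw [unp_eq (by omega)] at hl
    have hPd : (upk (r + 1) P).natDegree < r + 1 := upk_natDegree (by omega) P
    have hId : (upk (r - 1) I).natDegree < r - 1 := upk_natDegree (by omega) I
    have hUd : (upk r U).natDegree < r := upk_natDegree (by omega) U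
    obtain ⟨hmon, hdeg⟩ := monic_of_shift hPd hm'
    have hneg : red (Nat.mul 1152 (pk (upk (r + 1) P))) = pk (-(upk (r + 1) P)) := by
      have h5 := ((Rp_pk hPd).smul 1152).red (by unfold L; norm_num) (by omega)
      have h7 : ((1152 : ℕ) : ZMod L) = -1 := by decide
      rw [h7] at h5
      have h8 : C (-1) * upk (r + 1) P = -(upk (r + 1) P) := by rw [C_neg, C_1]; ring
      rw [h8] at h5
      exact h5
    have hprod : red (Nat.mul (pk (upk (r + 1) P)) (pk (upk (r - 1) I))) =
        pk (upk (r + 1) P * upk (r - 1) I) := by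
      apply ((Rp_pk hPd).mul (Rp_pk hId)).red
      · unfold L; omega
      · omega
    rw [hprod] at hi'
    have hi2 : divX^[r] (upk (r + 1) P * upk (r - 1) I) = X ^ (r - 2) := by
      apply pk_inj
      rw [← pk_shiftRight, pk_X_pow]
      exact hi'
    have hMD : MD (upk (r + 1) P) r (upk (r - 1) I) := by
      refine ⟨hmon, hdeg, hr2, hr99, hId, ?_⟩
      intro i hi
      rw [coeff_sub]
      have h5 := coeff_divX_iterate (upk (r + 1) P * upk (r - 1) I) r (i - r)
      rw [hi2] at h5
      have h6 : i - r + r = i := by omega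
      rw [h6] at h5
      rw [← h5, coeff_X_pow, coeff_X_pow]
      by_cases h7 : i = 2 * r - 2
      · rw [if_pos h7, if_pos (by omega), sub_self]
      · rw [if_neg h7, if_neg (by omega), sub_self]
    rw [hneg] at hl
    have hX : (X : (ZMod L)[X]) %ₘ (upk (r + 1) P) = X := by
      rw [modByMonic_eq_self_iff hmon, degree_eq_natDegree hmon.ne_zero, hdeg, degree_X]
      exact_mod_cast (by omega : 1 < r)
    have h1m : (1 : (ZMod L)[X]) %ₘ (upk (r + 1) P) = 1 := by
      haveI : Fact (1 < L) := ⟨by unfold L; norm_num⟩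
      rw [modByMonic_eq_self_iff hmon, degree_eq_natDegree hmon.ne_zero, hdeg, degree_one]
      exact_mod_cast (by omega : 0 < r)
    have hp := powL_spec hMD X
    rw [hX, pk_X] at hp
    rw [hp] at hl
    have h9 := rloop_spec hMD hUd (r - 1) 1 1
    rw [h1m, pk_one, pow_one] at h9
    obtain ⟨h10, A', -, h11, h12⟩ := h9 hl
    have h13 : 1 + (r - 1) = r := by omega
    rw [h13] at h10 h11
    refine ⟨hmon, hdeg, ?_⟩
    apply rabin (l := L) (upk (r + 1) P) r hmon hdeg (by omega)
    · rw [← modByMonic_eq_zero_iff_dvd hmon, sub_modByMonic, h10, hX, sub_self]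
    · intro J hJ1 hJ2 hJ3
      have hcop : IsCoprime (upk (r + 1) P) (A' * upk r U) := by
        refine ⟨-((A' * upk r U) /ₘ (upk (r + 1) P)), 1, ?_⟩
        have := modByMonic_add_div (A' * upk r U) (upk (r + 1) P)
        rw [h12] at this
        linear_combination -this
      exact (hcop.of_mul_right_left).of_isCoprime_of_dvd_right (h11 J hJ1 hJ2 hJ3)

end MTT
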