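import Pool.Agent.Lib_MP_bfd926_tb.TPoly

/-!
Multiplication modulo a polynomial in packed form.
-/

namespace MTT

open Polynomial

/-- Evaluation of the first argument (for the kernel). -/
noncomputable def force {α : Type} (x : ℕ) (f : ℕ → α) : α :=
  Nat.rec (motive := fun _ => α) (f 0) (fun p _ => f (Nat.succ p)) x

theorem force_eq {α : Type} (x : ℕ) (f : ℕ → α) : force x f = f x := by
  cases x <;> rfl

/-- Multiplication modulo a polynomial, Barrett reduction. -/
noncomputable def mm (s s2 I NP a b : ℕ) : ℕ :=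
  force (red (Nat.mul a b)) fun w =>
  red (Nat.add w (Nat.mul (Nat.shiftRight (red (Nat.mul (Nat.shiftRight w s) I)) s2) NP))

theorem coeff_mul_zero {R : Type*} [Semiring R] {f g : R[X]} {a b j : ℕ}
    (hf : ∀ i, a ≤ i → f.coeff i = 0) (hg : ∀ i, b ≤ i → g.coeff i = 0) (hj : a + b ≤ j + 1) :
    (f * g).coeff j = 0 := by
  rw [coeff_mul]
  apply Finset.sum_eq_zero
  intro x hx
  have := Finset.HasAntidiagonal.mem_antidiagonal.1 hx
  by_cases h1 : a ≤ x.1
  · rw [hf _ h1, zero_mul]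
  · rw [hg x.2 (by omega), mul_zero]

theorem natDegree_lt_of_coeff {R : Type*} [Semiring R] {f : R[X]} {a : ℕ} (ha : 1 ≤ a)
    (hf : ∀ i, a ≤ i → f.coeff i = 0) : f.natDegree < a := by
  by_contra h
  push_neg at h
  have := hf _ h
  have h2 : f = 0 := leadingCoeff_eq_zero.1 this
  rw [h2] at h
  simp at h
  omega

theorem coeff_of_natDegree_lt {R : Type*} [Semiring R] {f : R[X]} {a : ℕ}
    (h : f.natDegree < a) : ∀ i, a ≤ i → f.coeff i = 0 :=
  fun i hi => coeff_eq_zero_of_natDegree_lt (lt_of_lt_of_le h hi)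

/-- Barrett reduction for polynomials. -/
theorem barrett {R : Type*} [CommRing R] {P I W : R[X]} {r : ℕ} (hr : 2 ≤ r)
    (hP : P.natDegree ≤ r) (hI : ∀ i, r ≤ i → (X ^ (2 * r - 2) - P * I).coeff i = 0)
    (hW : W.natDegree < 2 * r - 1) :
    ∀ i, r ≤ i → (W - divX^[r - 2] (divX^[r] W * I) * P).coeff i = 0 := by
  intro i hi
  set W1 := divX^[r] W with hW1
  set T := W1 * I with hT
  set q := divX^[r - 2] T with hq
  set t := T - X ^ (r - 2) * q with ht
  set W0 := W - X ^ r * W1 with hW0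
  set S := X ^ (2 * r - 2) - P * I with hS
  have ht0 : ∀ i, r - 2 ≤ i → t.coeff i = 0 := by
    intro i hi
    rw [ht, coeff_sub, coeff_X_pow_mul', if_pos hi, hq, coeff_divX_iterate]
    have : i - (r - 2) + (r - 2) = i := by omega
    rw [this, sub_self]
  have hW00 : ∀ i, r ≤ i → W0.coeff i = 0 := by
    intro i hi
    rw [hW0, coeff_sub, coeff_X_pow_mul', if_pos hi, hW1, coeff_divX_iterate]
    have : i - r + r = i := by omega
    rw [this, sub_self]
  have hW10 : ∀ i, r - 1 ≤ i → W1.coeff i = 0 := by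
    intro i hi
    rw [hW1, coeff_divX_iterate]
    exact coeff_eq_zero_of_natDegree_lt (by omega)
  have key : X ^ (r - 2) * (W - q * P) = X ^ (r - 2) * W0 + W1 * S + t * P := by
    have e1 : W = X ^ r * W1 + W0 := by rw [hW0]; ring
    have e2 : X ^ (r - 2) * q = T - t := by rw [ht]; ring
    have e3 : (X : R[X]) ^ (2 * r - 2) = X ^ (r - 2) * X ^ r := by
      rw [← pow_add]; congr 1; omega
    calc X ^ (r - 2) * (W - q * P) = X ^ (r - 2) * W - (X ^ (r - 2) * q) * P := by ring
      _ = X ^ (r - 2) * (X ^ r * W1 + W0) - (T - t) * P := by rw [e2, ← e1]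
      _ = X ^ (r - 2) * W0 + W1 * (X ^ (r - 2) * X ^ r - P * I) + t * P := by rw [hT]; ring
      _ = _ := by rw [← e3]
  have hk := congrArg (fun f : R[X] => f.coeff (i + (r - 2))) key
  simp only [coeff_add] at hk
  rw [coeff_X_pow_mul', coeff_X_pow_mul', if_pos (by omega), if_pos (by omega)] at hk
  have e4 : i + (r - 2) - (r - 2) = i := by omega
  rw [e4, hW00 i hi, coeff_mul_zero hW10 hI (by omega),
    coeff_mul_zero ht0 (coeff_of_natDegree_lt (Nat.lt_succ_of_le hP)) (by omega)] at hk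
  rw [hk]
  simp

/-- The data for arithmetic modulo `P`. -/
structure MD (P : (ZMod L)[X]) (r : ℕ) (I : (ZMod L)[X]) : Prop where
  monic : P.Monic
  deg : P.natDegree = r
  r2 : 2 ≤ r
  r99 : r ≤ 99
  Ideg : I.natDegree < r - 1
  hI : ∀ i, r ≤ i → (X ^ (2 * r - 2) - P * I).coeff i = 0

theorem mod_lt {P p : (ZMod L)[X]} {r : ℕ} (h1 : P.Monic) (h2 : P.natDegree = r) (h3 : 1 ≤ r) :
    (p %ₘ P).natDegree < r := by
  have := natDegree_modByMonic_lt p h1 (by rintro rfl; simp at h2; omega)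
  omega

theorem mm_spec {P I p q : (ZMod L)[X]} {r : ℕ} (h : MD P r I) (hp : p.natDegree < r)
    (hq : q.natDegree < r) :
    mm (64 * r) (64 * (r - 2)) (pk I) (pk (-P)) (pk p) (pk q) = pk ((p * q) %ₘ P) := by
  obtain ⟨hmon, hdeg, hr2, hr99, hId, hI⟩ := h
  have hL : L = 1153 := rfl
  have e1 : red (Nat.mul (pk p) (pk q)) = pk (p * q) := by
    have h1 := (Rp_pk hp).mul (Rp_pk hq)
    apply h1.red
    · rw [hL]; omega
    · omega
  have hW : (p * q).natDegree < 2 * r - 1 :=
    lt_of_le_of_lt natDegree_mul_le (by omega)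
  have hW1 : (divX^[r] (p * q)).natDegree < r - 1 := by
    apply natDegree_lt_of_coeff (by omega)
    intro i hi
    rw [coeff_divX_iterate]
    exact coeff_eq_zero_of_natDegree_lt (by omega)
  have e2 : red (Nat.mul (pk (divX^[r] (p * q))) (pk I)) = pk (divX^[r] (p * q) * I) := by
    have h1 := (Rp_pk hW1).mul (Rp_pk hId)
    apply h1.red
    · rw [hL]; omega
    · omega
  set Q := divX^[r - 2] (divX^[r] (p * q) * I) with hQ
  have hQd : Q.natDegree < r - 1 := by
    apply natDegree_lt_of_coeff (by omega)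
    intro i hi
    rw [hQ, coeff_divX_iterate]
    apply coeff_eq_zero_of_natDegree_lt
    refine lt_of_le_of_lt natDegree_mul_le ?_
    omega
  have hNP : (-P).natDegree < r + 1 := by rw [natDegree_neg, hdeg]; omega
  have e3 : red (Nat.add (pk (p * q)) (Nat.mul (pk Q) (pk (-P)))) = pk (p * q + Q * (-P)) := by
    have h1 := ((Rp_pk hW).mono le_rfl (Nat.le_succ _)).add
      (((Rp_pk hQd).mul (Rp_pk hNP)).mono le_rfl (by omega : _ ≤ (2 * r - 1).succ))
    apply h1.red
    · rw [hL]; omega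
    · omega
  have e4 : p * q + Q * (-P) = (p * q) %ₘ P := by
    have hb := barrett hr2 (le_of_eq hdeg) hI hW
    have hd : (p * q - Q * P).degree < P.degree := by
      rw [degree_eq_natDegree hmon.ne_zero, hdeg]
      rw [degree_lt_iff_coeff_zero]
      exact hb
    have := (div_modByMonic_unique (f := p * q) Q (p * q - Q * P) hmon ⟨by ring, hd⟩).2
    rw [this]; ring
  unfold mm
  rw [force_eq, e1]
  have s1 : Nat.shiftRight (pk (p * q)) (64 * r) = pk (divX^[r] (p * q)) := pk_shiftRight _ _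
  rw [s1, e2]
  have s2 : Nat.shiftRight (pk (divX^[r] (p * q) * I)) (64 * (r - 2)) = pk Q :=
    pk_shiftRight _ _
  rw [s2, e3, e4]

/-- Power with the binary digits `bs` after a start. -/
noncomputable def powb (s s2 I NP y : ℕ) (bs : List Bool) : ℕ → ℕ :=
  List.rec (motive := fun _ => ℕ → ℕ) (fun a => a)
    (fun b _ ih a => force (mm s s2 I NP a a) fun c =>
      Bool.rec (motive := fun _ => ℕ) (ih c) (force (mm s s2 I NP c y) ih) b) bs

/-- The exponent described by binary digits. -/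
def bval : List Bool → ℕ → ℕ
  | [], e => e
  | false :: bs, e => bval bs (2 * e)
  | true :: bs, e => bval bs (2 * e + 1)

/-- Binary digits of `L` after the leading one. -/
def bitsL : List Bool := [false, false, true, false, false, false, false, false, false, true]

theorem bval_bitsL : bval bitsL 1 = L := rfl

theorem mul_mod_mod {P a b : (ZMod L)[X]} (h : P.Monic) :
    ((a %ₘ P) * (b %ₘ P)) %ₘ P = (a * b) %ₘ P := by
  rw [← sub_eq_zero, ← sub_modByMonic, modByMonic_eq_zero_iff_dvd h]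
  have ha : P ∣ a - a %ₘ P := by
    refine ⟨a /ₘ P, ?_⟩
    have := modByMonic_add_div a P
    linear_combination -this
  have hb : P ∣ b - b %ₘ P := by
    refine ⟨b /ₘ P, ?_⟩
    have := modByMonic_add_div b P
    linear_combination -this
  obtain ⟨c, hc⟩ := ha
  obtain ⟨d, hd⟩ := hb
  refine ⟨-(c * (b %ₘ P)) - a * d, ?_⟩
  linear_combination (-(b %ₘ P)) * hc - a * hd

theorem powb_spec {P I : (ZMod L)[X]} {r : ℕ} (h : MD P r I) (y : (ZMod L)[X]) (bs : List Bool)
    (e : ℕ) :
    powb (64 * r) (64 * (r - 2)) (pk I) (pk (-P)) (pk (y %ₘ P)) bs (pk (y ^ e %ₘ P)) =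
      pk (y ^ (bval bs e) %ₘ P) := by
  have hr1 : 1 ≤ r := by have := h.r2; omega
  have hlt : ∀ p : (ZMod L)[X], (p %ₘ P).natDegree < r := fun p => mod_lt h.monic h.deg hr1
  induction bs generalizing e with
  | nil => rfl
  | cons b bs ih =>
    have h1 : mm (64 * r) (64 * (r - 2)) (pk I) (pk (-P)) (pk (y ^ e %ₘ P)) (pk (y ^ e %ₘ P)) =
        pk (y ^ (2 * e) %ₘ P) := by
      rw [mm_spec h (hlt _) (hlt _), mul_mod_mod h.monic, ← pow_add, two_mul]
    have h2 : mm (64 * r) (64 * (r - 2)) (pk I) (pk (-P)) (pk (y ^ (2 * e) %ₘ P))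
        (pk (y %ₘ P)) = pk (y ^ (2 * e + 1) %ₘ P) := by
      rw [mm_spec h (hlt _) (hlt _), mul_mod_mod h.monic, ← pow_succ]
    cases b with
    | false =>
      show force (mm (64 * r) (64 * (r - 2)) (pk I) (pk (-P)) (pk (y ^ e %ₘ P))
        (pk (y ^ e %ₘ P))) (fun c => powb (64 * r) (64 * (r - 2)) (pk I) (pk (-P))
          (pk (y %ₘ P)) bs c) = _
      rw [force_eq, h1, ih]
      rfl
    | true =>
      show force (mm (64 * r) (64 * (r - 2)) (pk I) (pk (-P)) (pk (y ^ e %ₘ P))
        (pk (y ^ e %ₘ P))) (fun c => force (mm (64 * r) (64 * (r - 2)) (pk I) (pk (-P)) c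
          (pk (y %ₘ P))) (powb (64 * r) (64 * (r - 2)) (pk I) (pk (-P)) (pk (y %ₘ P)) bs)) = _
      rw [force_eq, h1, force_eq, h2, ih]
      rfl

/-- The `L`-th power modulo `P`. -/
noncomputable def powL (s s2 I NP a : ℕ) : ℕ := powb s s2 I NP a bitsL a

theorem powL_spec {P I : (ZMod L)[X]} {r : ℕ} (h : MD P r I) (y : (ZMod L)[X]) :
    powL (64 * r) (64 * (r - 2)) (pk I) (pk (-P)) (pk (y %ₘ P)) = pk (y ^ L %ₘ P) := by
  have := powb_spec h y bitsL 1
  rw [pow_one, bval_bitsL] at this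
  exact this

end MTT
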