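import Pool.Agent.Lib_MP_bfd926_tb.TPack

/-!
Packed polynomials over `ZMod L`.
-/

namespace MTT

open Polynomial

instance factL : Fact (Nat.Prime L) := ⟨by unfold L; norm_num⟩

/-- The packed form of a polynomial. -/
noncomputable def pk (p : (ZMod L)[X]) : ℕ := enc (p.natDegree + 1) (fun i => (p.coeff i).val)

theorem pk_eq {p : (ZMod L)[X]} {N : ℕ} (h : p.natDegree < N) :
    pk p = enc N (fun i => (p.coeff i).val) := by
  unfold pk
  symm
  apply enc_stable h
  intro i hi
  rw [coeff_eq_zero_of_natDegree_lt (by omega)]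
  exact ZMod.val_zero

theorem L_lt_B : L < B := by unfold L B; norm_num

theorem L_pos : 0 < L := by unfold L; norm_num

theorem val_le (x : ZMod L) : x.val ≤ L - 1 := by
  have := ZMod.val_lt x
  omega

theorem val_lt_B (x : ZMod L) : x.val < B := lt_trans (ZMod.val_lt x) L_lt_B

theorem pk_lt {p : (ZMod L)[X]} {N : ℕ} (h : p.natDegree < N) : pk p < B ^ N := by
  rw [pk_eq h]
  exact enc_lt (fun i => val_lt_B _)

theorem pk_divX (p : (ZMod L)[X]) : pk p = (p.coeff 0).val + B * pk p.divX := by
  have h1 : p.natDegree < p.natDegree + 1 + 1 := by omega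
  have h2 : p.divX.natDegree < p.natDegree + 1 := by
    have := natDegree_divX_le (p := p)
    omega
  rw [pk_eq h1, enc_succ, pk_eq h2]
  simp only [coeff_divX]

theorem pk_mod_B (p : (ZMod L)[X]) : pk p % B = (p.coeff 0).val := by
  rw [pk_divX, Nat.add_mul_mod_self_left, Nat.mod_eq_of_lt (val_lt_B _)]

theorem pk_div_B (p : (ZMod L)[X]) : pk p / B = pk p.divX := by
  rw [pk_divX, Nat.add_mul_div_left _ _ B_pos, Nat.div_eq_of_lt (val_lt_B _), zero_add]

theorem pk_zero : pk 0 = 0 := by
  rw [pk_eq (p := 0) (N := 1) (by simp)]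
  simp [enc_succ, enc_zero]

theorem pk_eq_zero {p : (ZMod L)[X]} (h : pk p = 0) : p = 0 := by
  have key : ∀ n, ∀ p : (ZMod L)[X], p.natDegree < n → pk p = 0 → p = 0 := by
    intro n
    induction n with
    | zero => intro p hp; omega
    | succ n ih =>
      intro p hp h
      rw [pk_divX] at h
      have h1 : (p.coeff 0).val = 0 := by omega
      have h2 : pk p.divX = 0 := by
        have hB := B_pos
        rcases Nat.eq_zero_or_pos (pk p.divX) with h3 | h3
        · exact h3
        · have := Nat.mul_pos hB h3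
          omega
      have h3 : p.coeff 0 = 0 := (ZMod.val_eq_zero _).1 h1
      have h4 : p.divX = 0 := by
        by_cases hd : p.natDegree = 0
        · rw [eq_C_of_natDegree_eq_zero hd, h3]; simp
        · apply ih _ _ h2
          have := natDegree_divX_eq_natDegree_tsub_one (p := p)
          omega
      rw [← divX_mul_X_add p, h3, h4]
      simp
  exact key _ p (Nat.lt_succ_self _) h

/-- The number `a` is the value at `B` of a polynomial with natural coefficients at most `b`,
of degree less than `n`, that reduces to `p`. -/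
def Rp (a : ℕ) (p : (ZMod L)[X]) (b n : ℕ) : Prop :=
  ∃ f : ℕ[X], f.eval B = a ∧ f.map (Nat.castRingHom (ZMod L)) = p ∧ (∀ i, f.coeff i ≤ b) ∧
    f.natDegree < n

theorem eval_enc {f : ℕ[X]} {n : ℕ} (h : f.natDegree < n) : f.eval B = enc n f.coeff := by
  rw [enc_eq_sum, eval_eq_sum_range' h]

theorem Rp.red {a : ℕ} {p : (ZMod L)[X]} {b n : ℕ} (h : Rp a p b n) (hb : b < 1073741824)
    (hn : n ≤ 200) : MTT.red a = pk p := by
  obtain ⟨f, rfl, rfl, h3, h4⟩ := h
  have hp : (f.map (Nat.castRingHom (ZMod L))).natDegree < n :=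
    lt_of_le_of_lt natDegree_map_le h4
  rw [eval_enc h4, red_enc n hn f.coeff (fun i => lt_of_le_of_lt (h3 i) hb), pk_eq hp]
  apply enc_congr
  intro i _
  rw [coeff_map]
  simp [ZMod.val_natCast]

theorem Rp_pk {p : (ZMod L)[X]} {n : ℕ} (h : p.natDegree < n) : Rp (pk p) p (L - 1) n := by
  refine ⟨∑ i ∈ Finset.range n, monomial i (p.coeff i).val, ?_, ?_, ?_, ?_⟩
  · rw [eval_finset_sum, pk_eq h, enc_eq_sum]
    apply Finset.sum_congr rfl
    intro i _
    rw [eval_monomial]
  · rw [Polynomial.map_sum]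
    rw [as_sum_range' p n h]
    apply Finset.sum_congr rfl
    intro i _
    rw [map_monomial]
    congr 1
    · rw [← as_sum_range' p n h]
      simp
  · intro i
    rw [finset_sum_coeff]
    simp only [coeff_monomial]
    rw [Finset.sum_ite_eq' (Finset.range n) i]
    split_ifs
    · exact val_le _
    · omega
  · have h1 : (∑ i ∈ Finset.range n, monomial i (p.coeff i).val : ℕ[X]).natDegree ≤ n - 1 := by
      apply natDegree_sum_le_of_forall_le
      intro i hi
      refine le_trans (natDegree_monomial_le _) ?_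
      have := Finset.mem_range.1 hi
      omega
    omega

theorem Rp.add {a a' : ℕ} {p p' : (ZMod L)[X]} {b b' n : ℕ} (h : Rp a p b n)
    (h' : Rp a' p' b' n) : Rp (a + a') (p + p') (b + b') n := by
  obtain ⟨f, rfl, rfl, h3, h4⟩ := h
  obtain ⟨g, rfl, rfl, h3', h4'⟩ := h'
  refine ⟨f + g, by rw [eval_add], by rw [Polynomial.map_add], ?_, ?_⟩
  · intro i
    rw [coeff_add]
    exact Nat.add_le_add (h3 i) (h3' i)
  · exact lt_of_le_of_lt (natDegree_add_le _ _) (max_lt h4 h4')

theorem Rp.mono {a : ℕ} {p : (ZMod L)[X]} {b b' n n' : ℕ} (h : Rp a p b n) (hb : b ≤ b')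
    (hn : n ≤ n') : Rp a p b' n' := by
  obtain ⟨f, h1, h2, h3, h4⟩ := h
  exact ⟨f, h1, h2, fun i => le_trans (h3 i) hb, lt_of_lt_of_le h4 hn⟩

theorem Rp.smul {a : ℕ} {p : (ZMod L)[X]} {b n : ℕ} (c : ℕ) (h : Rp a p b n) :
    Rp (c * a) (C (c : ZMod L) * p) (c * b) n := by
  obtain ⟨f, rfl, rfl, h3, h4⟩ := h
  refine ⟨C c * f, by rw [eval_mul, eval_C], by rw [Polynomial.map_mul, map_C]; rfl, ?_, ?_⟩
  · intro i
    rw [coeff_C_mul]
    exact Nat.mul_le_mul_left _ (h3 i)
  · exact lt_of_le_of_lt (natDegree_C_mul_le _ _) h4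

theorem Rp.shift {a : ℕ} {p : (ZMod L)[X]} {b n : ℕ} (h : Rp a p b n) :
    Rp (a * B) (X * p) b (n + 1) := by
  obtain ⟨f, rfl, rfl, h3, h4⟩ := h
  refine ⟨X * f, by rw [eval_mul, eval_X, mul_comm], by rw [Polynomial.map_mul, map_X], ?_, ?_⟩
  · intro i
    cases i with
    | zero => rw [coeff_X_mul_zero]; omega
    | succ i => rw [coeff_X_mul]; exact h3 i
  · refine lt_of_le_of_lt natDegree_mul_le ?_
    have := natDegree_X_le (R := ℕ)
    omega

theorem coeff_mul_le {f g : ℕ[X]} {n b b' : ℕ} (hf : f.natDegree < n) (hb : ∀ i, f.coeff i ≤ b)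
    (hb' : ∀ i, g.coeff i ≤ b') (k : ℕ) : (f * g).coeff k ≤ n * (b * b') := by
  rw [coeff_mul, Finset.Nat.sum_antidiagonal_eq_sum_range_succ_mk]
  calc ∑ i ∈ Finset.range (k + 1), f.coeff i * g.coeff (k - i)
      ≤ ∑ i ∈ Finset.range (k + 1), (if i < n then b * b' else 0) := by
        apply Finset.sum_le_sum
        intro i _
        split_ifs with hi
        · exact Nat.mul_le_mul (hb i) (hb' _)
        · rw [coeff_eq_zero_of_natDegree_lt (by omega), zero_mul]
    _ = ((Finset.range (k + 1)).filter (fun i => i < n)).card * (b * b') := by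
        rw [← Finset.sum_filter, Finset.sum_const, smul_eq_mul]
    _ ≤ n * (b * b') := by
        apply Nat.mul_le_mul_right
        calc ((Finset.range (k + 1)).filter (fun i => i < n)).card
            ≤ (Finset.range n).card := by
              apply Finset.card_le_card
              intro i hi
              rw [Finset.mem_filter] at hi
              exact Finset.mem_range.2 hi.2
          _ = n := Finset.card_range n

theorem Rp.mul {a a' : ℕ} {p p' : (ZMod L)[X]} {b b' n n' : ℕ} (h : Rp a p b n)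
    (h' : Rp a' p' b' n') : Rp (a * a') (p * p') (n * (b * b')) (n + n' - 1) := by
  obtain ⟨f, rfl, rfl, h3, h4⟩ := h
  obtain ⟨g, rfl, rfl, h3', h4'⟩ := h'
  refine ⟨f * g, by rw [eval_mul], by rw [Polynomial.map_mul], ?_, ?_⟩
  · exact coeff_mul_le h4 h3 h3'
  · refine lt_of_le_of_lt natDegree_mul_le ?_
    omega

theorem shiftRight_B (a r : ℕ) : a >>> (64 * r) = a / B ^ r := by
  rw [Nat.shiftRight_eq_div_pow, pow_mul, B_eq]

theorem pk_div_pow (p : (ZMod L)[X]) (r : ℕ) : pk p / B ^ r = pk (divX^[r] p) := by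
  induction r generalizing p with
  | zero => simp
  | succ r ih =>
    rw [pow_succ', ← Nat.div_div_eq_div_mul, pk_div_B, ih, Function.iterate_succ_apply]

theorem pk_shiftRight (p : (ZMod L)[X]) (r : ℕ) : pk p >>> (64 * r) = pk (divX^[r] p) := by
  rw [shiftRight_B, pk_div_pow]

theorem coeff_divX_iterate {R : Type*} [Semiring R] (p : R[X]) (r i : ℕ) :
    (divX^[r] p).coeff i = p.coeff (i + r) := by
  induction r generalizing p with
  | zero => simp
  | succ r ih =>
    rw [Function.iterate_succ_apply, ih, coeff_divX]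
    congr 1

end MTT
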